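import Pool.Agent.U901.FXDefs
import Pool.Agent.T2H37.PR.WFinal

/-!
# Zero-cycles on products of Fermat hypersurfaces: the components of a correspondence
-/

set_option autoImplicit false
set_option linter.unusedSectionVars false
set_option linter.unusedSimpArgs false

namespace Pool.Agent.U901.FX

open MvPolynomial Finset Pool.Agent.T2H37.FK Pool.Agent.T2H37.PR

section minor

variable {𝕜 : Type*} [Field 𝕜] {K : ℕ} {N : Fin K → ℕ} {m : ℕ}

/-- the minor of an automorphism for sets of factors which do not correspond to each other -/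
lemma minor_zero [∀ k, NeZero (N k)] (g : PAut 𝕜 N m) {S S' : Finset (Fin K)}
    (r : {x : Σ k, Fin (N k) // x.1 ∈ S} ≃ {x : Σ k, Fin (N k) // x.1 ∈ S'})
    (h : S.map g.perm.toEmbedding ≠ S') : g.minor r = 0 := by
  classical
  -- the entries vanish unless the factors correspond to each other
  have hent : ∀ x y : {x : Σ k, Fin (N k) // x.1 ∈ S}, (r y).1.1 ≠ g.perm x.1.1 →
      g.vec (Pi.single (r y).1.1 (Pi.single (r y).1.2 1)) x.1.1 x.1.2 = 0 := by
    intro x y hxy
    have h1 : (fun i => (Pi.single (r y).1.1 (Pi.single (r y).1.2 1) :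
        ∀ k, Fin (N k) → 𝕜) (g.perm x.1.1) (Fin.cast (g.dim x.1.1) i)) = 0 := by
      funext i
      rw [Pi.single_eq_of_ne (Ne.symm hxy)]
      rfl
    rw [PAut.vec, h1, Matrix.mulVec_zero]
    rfl
  rw [PAut.minor]
  by_cases h1 : ∃ k ∈ S, g.perm k ∉ S'
  · obtain ⟨k, hk, hk'⟩ := h1
    refine Matrix.det_eq_zero_of_row_eq_zero ⟨⟨k, 0⟩, hk⟩ fun y => ?_
    rw [Matrix.of_apply]
    refine hent _ _ fun h2 => hk' ?_
    rw [← h2]
    exact (r y).2
  · push Not at h1
    have h2 : ∃ l ∈ S', l ∉ S.map g.perm.toEmbedding := by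
      by_contra hcon
      push Not at hcon
      apply h
      apply subset_antisymm
      · intro l hl
        rw [mem_map] at hl
        obtain ⟨k, hk, rfl⟩ := hl
        exact h1 k hk
      · exact hcon
    obtain ⟨l, hl, hl'⟩ := h2
    refine Matrix.det_eq_zero_of_column_eq_zero (r.symm ⟨⟨l, 0⟩, hl⟩) fun x => ?_
    rw [Matrix.of_apply]
    refine hent _ _ fun h2 => hl' ?_
    rw [Equiv.apply_symm_apply] at h2
    rw [mem_map]
    exact ⟨x.1.1, x.2, h2.symm⟩

end minor

section segre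

variable {𝕜 : Type*} [Field 𝕜] {K : ℕ} {N : Fin K → ℕ} {m : ℕ}

/-- the action of an automorphism on the Chow forms -/
noncomputable def segHom (g : PAut 𝕜 N m) :
    MvPolynomial (∀ k, Fin (N k)) 𝕜 →ₐ[𝕜] MvPolynomial (∀ k, Fin (N k)) 𝕜 :=
  aeval fun j => ∑ l : ∀ k, Fin (N k),
    C (∏ k, (g.mat k).1.1 (l k) (Fin.cast (g.dim k).symm (j (g.perm k)))) * X l

lemma segHom_segre (g : PAut 𝕜 N m) (v : ∀ k, Fin (N k) → 𝕜) :
    segHom g (segre v) = segre (g.vec v) := by
  classical
  have hbij : Function.Bijective fun (j : ∀ k, Fin (N k)) (k : Fin K) =>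
      Fin.cast (g.dim k).symm (j (g.perm k)) := by
    rw [← Finite.injective_iff_bijective]
    intro j j' h
    funext k
    obtain ⟨k', rfl⟩ := g.perm.surjective k
    have h1 := congrFun h k'
    exact Fin.cast_injective _ h1
  have h1 : segHom g (segre v) = ∑ j : ∀ k, Fin (N k), ∑ l : ∀ k, Fin (N k),
      C ((∏ k, v k (j k)) *
        ∏ k, (g.mat k).1.1 (l k) (Fin.cast (g.dim k).symm (j (g.perm k)))) * X l := by
    rw [segre, map_sum]
    refine sum_congr rfl fun j _ => ?_
    rw [map_mul, algHom_C, algebraMap_eq, segHom, aeval_X, mul_sum]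
    refine sum_congr rfl fun l _ => ?_
    rw [C_mul, mul_assoc]
  rw [h1, sum_comm, segre]
  refine sum_congr rfl fun l _ => ?_
  rw [← sum_mul, ← map_sum]
  congr 2
  have h2 : ∀ j : ∀ k, Fin (N k), (∏ k, v k (j k)) *
      ∏ k, (g.mat k).1.1 (l k) (Fin.cast (g.dim k).symm (j (g.perm k))) =
      ∏ k, (g.mat k).1.1 (l k) (Fin.cast (g.dim k).symm (j (g.perm k))) *
        v (g.perm k) (Fin.cast (g.dim k) (Fin.cast (g.dim k).symm (j (g.perm k)))) := by
    intro j
    rw [prod_mul_distrib, mul_comm]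
    congr 1
    rw [← Equiv.prod_comp g.perm]
    rfl
  simp only [h2]
  rw [hbij.sum_comp fun j' : ∀ k, Fin (N k) => ∏ k, (g.mat k).1.1 (l k) (j' k) *
    v (g.perm k) (Fin.cast (g.dim k) (j' k))]
  rw [← Fintype.prod_sum fun k (i : Fin (N k)) => (g.mat k).1.1 (l k) i *
    v (g.perm k) (Fin.cast (g.dim k) i)]
  rfl

end segre

section good

variable {𝕜 : Type*} [Field 𝕜] [IsAlgClosed 𝕜] [CharZero 𝕜]

variable {K : ℕ} {N : Fin K → ℕ} {m : ℕ} [NeZero m] {f : (∀ k, Fin (N k) → 𝕜) → 𝕜}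

lemma vec_update (g : PAut 𝕜 N m) (v : ∀ k, Fin (N k) → 𝕜) (k : Fin K) (w : Fin (N (g.perm k)) → 𝕜) :
    g.vec (Function.update v (g.perm k) w) =
      Function.update (g.vec v) k ((g.mat k).1.1.mulVec fun i => w (Fin.cast (g.dim k) i)) := by
  funext k'
  by_cases hk : k' = k
  · subst hk
    rw [Function.update_self, PAut.vec, Function.update_self]
  · have h1 : g.perm k' ≠ g.perm k := fun h => hk (g.perm.injective h)
    rw [Function.update_of_ne hk, PAut.vec, Function.update_of_ne h1, PAut.vec]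

lemma goodP_vec (hf : GoodP m f) (g : PAut 𝕜 N m) : GoodP m fun v => f (g.vec v) := by
  constructor
  · intro k c v hc hv
    obtain ⟨k', rfl⟩ := g.perm.surjective k
    rw [vec_update]
    have h1 : ((g.mat k').1.1.mulVec fun i => (c • v (g.perm k')) (Fin.cast (g.dim k') i)) =
        c • g.vec v k' := by
      have h2 : (fun i => (c • v (g.perm k')) (Fin.cast (g.dim k') i)) =
          c • fun i => v (g.perm k') (Fin.cast (g.dim k') i) := rfl
      rw [h2, Matrix.mulVec_smul]
      rfl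
    rw [h1]
    exact hf.smul k' c (g.vec v) hc (onP_vec g hv)
  · intro d F hF hdec s s' hs hs'
    have hrep : ∀ (t : 𝕜) (s : Multiset (∀ k, Fin (N k) → 𝕜)), RepP m d (F t) s →
        RepP m d (segHom g (F t)) (s.map fun v => g.vec v) := by
      intro t s hs
      obtain ⟨h1, h2, c, hc, h3⟩ := hs
      refine ⟨by rw [Multiset.card_map, h1], ?_, c, hc, ?_⟩
      · intro w hw
        rw [Multiset.mem_map] at hw
        obtain ⟨w', hw', rfl⟩ := hw
        exact onP_vec g (h2 w' hw')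
      · rw [h3, map_mul, algHom_C, algebraMap_eq, map_multiset_prod, Multiset.map_map,
          Multiset.map_map]
        congr 3
        funext w
        exact segHom_segre g w
    have h1 := hf.fam d (fun t => segHom g (F t)) (hF.map (segHom g))
      (fun t => by
        obtain ⟨s, hs⟩ := hdec t
        exact ⟨_, hrep t s hs⟩) _ _ (hrep 0 s hs) (hrep 1 s' hs')
    rw [Multiset.map_map, Multiset.map_map] at h1
    exact h1

/-- the additive function on cycles given by a function on vectors -/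
noncomputable def lift (f : (∀ k, Fin (N k) → 𝕜) → 𝕜) : (Pts 𝕜 N m →₀ ℤ) →+ 𝕜 :=
  Finsupp.liftAddHom fun x => (AddMonoidHom.mulRight (f fun k => (x k).1.rep)).comp
    (Int.castAddHom 𝕜)

lemma lift_apply (f : (∀ k, Fin (N k) → 𝕜) → 𝕜) (z : Pts 𝕜 N m →₀ ℤ) :
    lift f z = ∑ x ∈ z.support, (z x : 𝕜) * f fun k => (x k).1.rep := rfl

lemma lift_single (f : (∀ k, Fin (N k) → 𝕜) → 𝕜) (x : Pts 𝕜 N m) :
    lift f (Finsupp.single x 1) = f fun k => (x k).1.rep := by
  rw [lift, Finsupp.liftAddHom_apply_single]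
  simp

lemma repP_of {d : ℕ} {p : Fin d → Pts 𝕜 N m} {F : MvPolynomial (∀ k, Fin (N k)) 𝕜}
    (h : IsChowForm p F) :
    RepP m d F ((univ : Finset (Fin d)).val.map fun j k => (p j k).1.rep) := by
  obtain ⟨c, hc, hF⟩ := h
  refine ⟨by rw [Multiset.card_map]; simp, ?_, c, hc, ?_⟩
  · intro v hv
    rw [Multiset.mem_map] at hv
    obtain ⟨j, _, rfl⟩ := hv
    exact onP_rep (p j)
  · rw [hF, Multiset.map_map]
    rfl

lemma lift_joined (hf : GoodP m f) {d : ℕ} {p q : Fin d → Pts 𝕜 N m} (h : Joined p q) :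
    ∑ j, f (fun k => (p j k).1.rep) = ∑ j, f (fun k => (q j k).1.rep) := by
  obtain ⟨F, h1, h2, h3⟩ := h
  have h4 := hf.fam d (fun t => F.eval (C t)) ⟨F, fun _ => rfl⟩
    (fun t => by
      obtain ⟨s, hs⟩ := h1 t
      exact ⟨_, repP_of hs⟩) _ _ (repP_of h2) (repP_of h3)
  rw [Multiset.map_map, Multiset.map_map] at h4
  exact h4

lemma lift_ratEquiv (hf : GoodP m f) {z : Pts 𝕜 N m →₀ ℤ} (hz : z ∈ Pool.Agent.T2H37.PR.RatEquivZero 𝕜 N m) :
    lift f z = 0 := by
  have h1 : Pool.Agent.T2H37.PR.RatEquivZero 𝕜 N m ≤ (lift f : (Pts 𝕜 N m →₀ ℤ) →+ 𝕜).ker := by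
    rw [Pool.Agent.T2H37.PR.RatEquivZero, AddSubgroup.closure_le]
    rintro _ ⟨d, p, q, hpq, rfl⟩
    change lift f _ = 0
    rw [map_sub, map_sum, map_sum, sub_eq_zero]
    simp only [lift_single]
    exact lift_joined hf hpq
  exact h1 hz

lemma lift_torsion (hf : GoodP m f) {z : Pts 𝕜 N m →₀ ℤ} {j : ℕ} (hj : 0 < j)
    (hz : j • z ∈ Pool.Agent.T2H37.PR.RatEquivZero 𝕜 N m) : lift f z = 0 := by
  have h1 := lift_ratEquiv hf hz
  rw [map_nsmul, nsmul_eq_mul] at h1
  exact (mul_eq_zero.1 h1).resolve_left (Nat.cast_ne_zero.2 hj.ne')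

lemma lift_keep {z : Pts 𝕜 N m →₀ ℤ} {o : Pts 𝕜 N m} {S : Finset (Fin K)}
    (h : ∀ x : Pts 𝕜 N m, f (fun k => (x k).1.rep) = f fun k => (keep o S x k).1.rep) :
    lift f z = lift f (z.mapDomain (keep o S)) := by
  have h1 : lift f = (lift f).comp (Finsupp.mapDomain.addMonoidHom (keep o S)) := by
    refine Finsupp.addHom_ext' fun x => ?_
    ext
    change lift f (Finsupp.single x 1) = lift f (Finsupp.mapDomain (keep o S) (Finsupp.single x 1))
    rw [Finsupp.mapDomain_single, lift_single, lift_single]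
    exact h x
  exact DFunLike.congr_fun h1 z

end good

section final

variable {𝕜 : Type*} [Field 𝕜] [IsAlgClosed 𝕜] [CharZero 𝕜]

variable {K : ℕ} {N : Fin K → ℕ} {m : ℕ}

open Classical in
/-- the part of a combination with given images of a set of factors -/
noncomputable def part (a : PAut 𝕜 N m →₀ ℤ) (T S' : Finset (Fin K)) : PAut 𝕜 N m →₀ ℤ :=
  a.filter fun g => T.map g.perm.toEmbedding = S'

lemma part_killsType [∀ k, NeZero (N k)] {a : PAut 𝕜 N m →₀ ℤ} {S' : Finset (Fin K)}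
    (h : KillsInto a S') (T : Finset (Fin K)) : KillsType (part a T S') T := by
  classical
  intro S'' r d P hP v
  have h1 : (part a T S').sum (fun g c => (c : 𝕜) * (g.minor r * ∏ k ∈ T, eval (g.vec v k) (P k))) =
      ∑ g ∈ a.support, if T.map g.perm.toEmbedding = S' then
        (a g : 𝕜) * (g.minor r * ∏ k ∈ T, eval (g.vec v k) (P k)) else 0 := by
    rw [Finsupp.sum, part, Finsupp.support_filter, sum_filter]
    refine sum_congr rfl fun g _ => ?_
    split_ifs with hg
    · rw [Finsupp.filter_apply_pos (fun g : PAut 𝕜 N m => T.map g.perm.toEmbedding = S') a hg]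
    · rfl
  rw [h1]
  by_cases hS : S'' = S'
  · subst hS
    refine Eq.trans (sum_congr rfl fun g _ => ?_) (h T r d P hP v)
    by_cases hg : T.map g.perm.toEmbedding = S''
    · rw [if_pos hg]
    · rw [if_neg hg]
      beta_reduce
      rw [minor_zero g r hg, zero_mul, mul_zero]
  · refine sum_eq_zero fun g _ => ?_
    by_cases hg : T.map g.perm.toEmbedding = S'
    · rw [if_pos hg, minor_zero g r (by rw [hg]; exact Ne.symm hS), zero_mul, mul_zero]
    · rw [if_neg hg]

lemma sum_part (a : PAut 𝕜 N m →₀ ℤ) (T : Finset (Fin K)) (F : (∀ k, Fin (N k) → 𝕜) → 𝕜)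
    (v : ∀ k, Fin (N k) → 𝕜) : wQ a F v = ∑ S' : Finset (Fin K), wQ (part a T S') F v := by
  classical
  have h1 : ∀ S' : Finset (Fin K), wQ (part a T S') F v =
      ∑ g ∈ a.support with T.map g.perm.toEmbedding = S', (a g : 𝕜) * F (g.vec v) := by
    intro S'
    rw [wQ, Finsupp.sum, part, Finsupp.support_filter]
    refine sum_congr rfl fun g hg => ?_
    rw [Finsupp.filter_apply_pos (fun g : PAut 𝕜 N m => T.map g.perm.toEmbedding = S') a
      (mem_filter.1 hg).2]
  simp only [h1]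
  rw [sum_fiberwise]
  rfl

/-- **The theorem.** Let `z` be a zero-cycle on the product `X` of Fermat hypersurfaces and `a` an
integral combination of automorphisms such that for all sets `S'` of factors the pullback of
holomorphic forms by `a` has no component of type `S'`, or the push-forward of `z` to the product of
the factors in `S'` is torsion modulo rational equivalence. Then the image of `z` under `a` is torsion
modulo rational equivalence. -/
theorem mainG (hm : 3 ≤ m) (hmN : ∀ k, m + 3 ≤ 2 * N k) (a : PAut 𝕜 N m →₀ ℤ)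
    (z : Pts 𝕜 N m →₀ ℤ) (o : Pts 𝕜 N m)
    (h : ∀ S' : Finset (Fin K), KillsInto a S' ∨
      ∃ j : ℕ, 0 < j ∧ j • z.mapDomain (keep o S') ∈ Pool.Agent.T2H37.PR.RatEquivZero 𝕜 N m) :
    ∃ j : ℕ, 0 < j ∧ j • (a.sum fun g c => c • z.mapDomain g.act) ∈ Pool.Agent.T2H37.PR.RatEquivZero 𝕜 N m := by
  classical
  have : NeZero m := ⟨by omega⟩
  have hN : ∀ k, 3 ≤ N k := by
    intro k
    have := hmN k
    omega
  have : ∀ k, NeZero (N k) := fun k => ⟨by have := hN k; omega⟩
  refine torsion_of' _ fun ψ hψ0 => ?_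
  set F : (∀ k, Fin (N k) → 𝕜) → 𝕜 := extP fun x : Pts 𝕜 N m => ψ (Finsupp.single x 1) with hF
  have hFG : GoodP m F := goodP_of ψ hψ0
  rw [psi_mapDomain]
  have h1 : ∀ x : Pts 𝕜 N m, ∑ g ∈ a.support, (a g : 𝕜) * ψ (Finsupp.single (g.act x) 1) =
      wQ a F fun k => (x k).1.rep := fun x => (wQ_ext a ψ x).symm
  simp only [h1]
  refine mul_left_cancel₀ (card_ne_zeroP (𝕜 := 𝕜) (N := N) (m := m)) ?_
  rw [mul_zero, mul_sum]
  have h2 : ∀ x : Pts 𝕜 N m, (Fintype.card (∀ k, Fin (N k) → ZMod m) : 𝕜) *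
      ((z x : 𝕜) * wQ a F fun k => (x k).1.rep) =
      ∑ α : ∀ k, Fin (N k) → ZMod m, (z x : 𝕜) * wQ a (Pool.Agent.T2H37.PR.compP F α) fun k => (x k).1.rep := by
    intro x
    rw [← mul_sum, sum_wQ]
    ring
  simp only [h2]
  rw [sum_comm]
  refine sum_eq_zero fun α _ => ?_
  set T : Finset (Fin K) := univ.filter fun k => α k ≠ 0 with hT
  have hTα : ∀ k, k ∈ T ↔ α k ≠ 0 := fun k => by simp [hT]
  have h3 : ∀ x : Pts 𝕜 N m, (z x : 𝕜) * wQ a (Pool.Agent.T2H37.PR.compP F α) (fun k => (x k).1.rep) =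
      ∑ S' : Finset (Fin K), (z x : 𝕜) * wQ (part a T S') (Pool.Agent.T2H37.PR.compP F α) fun k => (x k).1.rep := by
    intro x
    rw [sum_part a T, mul_sum]
  simp only [h3]
  rw [sum_comm]
  refine sum_eq_zero fun S' _ => ?_
  rcases h S' with h4 | ⟨j, hj, h4⟩
  · refine sum_eq_zero fun x _ => ?_
    rw [hFG.wQ_type hm hN hmN (part a T S') hTα (part_killsType h4 T) (onP_rep x), mul_zero]
  · have h5 : ∀ x : Pts 𝕜 N m, (z x : 𝕜) * wQ (part a T S') (Pool.Agent.T2H37.PR.compP F α)
        (fun k => (x k).1.rep) = ∑ g ∈ (part a T S').support, (part a T S' g : 𝕜) *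
          ((z x : 𝕜) * Pool.Agent.T2H37.PR.compP F α (g.vec fun k => (x k).1.rep)) := by
      intro x
      rw [wQ, Finsupp.sum, mul_sum]
      refine sum_congr rfl fun g _ => ?_
      ring
    simp only [h5]
    rw [sum_comm]
    refine sum_eq_zero fun g hg => ?_
    rw [← mul_sum]
    have hgT : T.map g.perm.toEmbedding = S' := by
      rw [part, Finsupp.support_filter, mem_filter] at hg
      exact hg.2
    have h6 : GoodP m fun v => Pool.Agent.T2H37.PR.compP F α (g.vec v) := goodP_vec (hFG.compP α) g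
    have h7 : lift (m := m) (fun v => Pool.Agent.T2H37.PR.compP F α (g.vec v)) z = 0 := by
      rw [lift_keep (o := o) (S := S')]
      · exact lift_torsion h6 hj h4
      · intro x
        refine hFG.comp_congr (fun k => by have := hN k; omega) (onP_vec g (onP_rep x))
          (onP_vec g (onP_rep _)) fun k hk => ?_
        have h8 : g.perm k ∈ S' := by
          rw [← hgT, mem_map]
          exact ⟨k, (hTα k).2 hk, rfl⟩
        rw [PAut.vec, PAut.vec, keep, if_pos h8]
    rw [lift_apply] at h7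
    rw [h7, mul_zero]

end final

end Pool.Agent.U901.FX
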