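import Pool.Agent.U901.BBDefs
import Pool.Agent.U901.FX
import Pool.Agent.T2H37.PR.Dg4

/-!
# Zero-cycles on products of Fermat hypersurfaces: morphisms between different products
-/

set_option autoImplicit false
set_option linter.unusedSectionVars false
set_option linter.unusedSimpArgs false

namespace Pool.Agent.U901.BB

open MvPolynomial Finset Pool.Agent.T2H37.FK Pool.Agent.T2H37.PR

section comp

variable {𝕜 : Type*} [Field 𝕜] {K K' : ℕ} {N : Fin K → ℕ} {N' : Fin K' → ℕ} {n m : ℕ}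

/-- the source factor of a component -/
def Comp.idx : Comp 𝕜 N n m → Option (Fin K)
  | .const _ _ _ => none
  | .lin j _ _ => some j

/-- the matrix of a component -/
def Comp.mat : Comp 𝕜 N n m → FermatGroup 𝕜 n m
  | .const _ _ _ => 1
  | .lin _ _ A => A

lemma Comp.dim_of {c : Comp 𝕜 N n m} {j : Fin K} (h : c.idx = some j) : n = N j := by
  cases c with
  | const o i h' => simp [Comp.idx] at h
  | lin j' h' A =>
    simp only [Comp.idx, Option.some.injEq] at h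
    subst h
    exact h'

lemma Comp.dvec_of {c : Comp 𝕜 N n m} {j : Fin K} (h : c.idx = some j) (v : ∀ j, Fin (N j) → 𝕜) :
    c.dvec v = c.mat.1.1.mulVec fun i => v j (Fin.cast (Comp.dim_of h) i) := by
  cases c with
  | const o i h' => simp [Comp.idx] at h
  | lin j' h' A =>
    simp only [Comp.idx, Option.some.injEq] at h
    subst h
    rfl

lemma Comp.vec_of {c : Comp 𝕜 N n m} {j : Fin K} (h : c.idx = some j) (v : ∀ j, Fin (N j) → 𝕜) :
    c.vec v = c.mat.1.1.mulVec fun i => v j (Fin.cast (Comp.dim_of h) i) := by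
  cases c with
  | const o i h' => simp [Comp.idx] at h
  | lin j' h' A =>
    simp only [Comp.idx, Option.some.injEq] at h
    subst h
    rfl

lemma Comp.dvec_none {c : Comp 𝕜 N n m} (h : c.idx = none) (v : ∀ j, Fin (N j) → 𝕜) :
    c.dvec v = 0 := by
  cases c with
  | const o i h' => rfl
  | lin j' h' A => simp [Comp.idx] at h

lemma Comp.vec_none {c : Comp 𝕜 N n m} (h : c.idx = none) (v : ∀ j, Fin (N j) → 𝕜) :
    ∃ i, c.vec v i = 0 := by
  cases c with
  | const o i h' => exact ⟨i, h'⟩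
  | lin j' h' A => simp [Comp.idx] at h

/-- the components of the morphism in the factors in `T` come from the different factors in `S` -/
def Gd (g : Mor 𝕜 N N' m) {T : Finset (Fin K')} {S : Finset (Fin K)}
    (e : {k // k ∈ T} ≃ {j // j ∈ S}) : Prop :=
  ∀ k : {k // k ∈ T}, (g k.1).idx = some (e k).1

lemma Gd.dimOf {g : Mor 𝕜 N N' m} {T : Finset (Fin K')} {S : Finset (Fin K)}
    {e : {k // k ∈ T} ≃ {j // j ∈ S}} (he : Gd g e) : dimOf N' T = dimOf N S := by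
  rw [BB.dimOf, BB.dimOf, ← Finset.sum_coe_sort T, ← Finset.sum_coe_sort S, ← Equiv.sum_comp e]
  refine Finset.sum_congr rfl fun k _ => ?_
  rw [Comp.dim_of (he k)]

lemma Gd.unique {g : Mor 𝕜 N N' m} {T : Finset (Fin K')} {S S' : Finset (Fin K)}
    {e : {k // k ∈ T} ≃ {j // j ∈ S}} (he : Gd g e) {e' : {k // k ∈ T} ≃ {j // j ∈ S'}}
    (he' : Gd g e') : S = S' := by
  have key : ∀ (S S' : Finset (Fin K)) (e : {k // k ∈ T} ≃ {j // j ∈ S})
      (e' : {k // k ∈ T} ≃ {j // j ∈ S'}), Gd g e → Gd g e' → S ⊆ S' := by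
    intro S S' e e' he he' j hj
    have h1 := he (e.symm ⟨j, hj⟩)
    rw [Equiv.apply_symm_apply, he' (e.symm ⟨j, hj⟩)] at h1
    have h2 : (e' (e.symm ⟨j, hj⟩)).1 = j := Option.some_injective _ h1
    rw [← h2]
    exact (e' (e.symm ⟨j, hj⟩)).2
  exact subset_antisymm (key S S' e e' he he') (key S' S e' e he' he)

lemma card_IS (T : Finset (Fin K)) : Fintype.card {x : Σ k, Fin (N k) // x.1 ∈ T} = ∑ k ∈ T, N k := by
  classical
  rw [Fintype.card_of_subtype (T.sigma fun _ => univ) (by intro x; simp), card_sigma]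
  simp

lemma minor_zero (hN : ∀ j, 0 < N j) (hN' : ∀ k, 0 < N' k) (g : Mor 𝕜 N N' m)
    {T : Finset (Fin K')} {S : Finset (Fin K)}
    (r : {x : Σ k, Fin (N' k) // x.1 ∈ T} ≃ {x : Σ j, Fin (N j) // x.1 ∈ S})
    (h : ∀ e : {k // k ∈ T} ≃ {j // j ∈ S}, ¬ Gd g e) : g.minor r = 0 := by
  classical
  have hent : ∀ x y : {x : Σ k, Fin (N' k) // x.1 ∈ T}, (g x.1.1).idx ≠ some (r y).1.1 →
      (g x.1.1).dvec (Pi.single (r y).1.1 (Pi.single (r y).1.2 1)) x.1.2 = 0 := by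
    intro x y hxy
    rcases hc : (g x.1.1).idx with _ | j
    · rw [Comp.dvec_none hc]
      rfl
    · rw [Comp.dvec_of hc]
      have h1 : (fun i => (Pi.single (r y).1.1 (Pi.single (r y).1.2 1) : ∀ j, Fin (N j) → 𝕜) j
          (Fin.cast (Comp.dim_of hc) i)) = 0 := by
        funext i
        rw [Pi.single_eq_of_ne]
        · rfl
        · rintro rfl
          exact hxy hc
      rw [h1, Matrix.mulVec_zero]
      rfl
  rw [Mor.minor]
  by_cases h1 : ∀ k ∈ T, ∃ j ∈ S, (g k).idx = some j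
  swap
  · push Not at h1
    obtain ⟨k, hk, h1⟩ := h1
    refine Matrix.det_eq_zero_of_row_eq_zero ⟨⟨k, ⟨0, hN' k⟩⟩, hk⟩ fun y => ?_
    rw [Matrix.of_apply]
    exact hent _ _ (h1 _ (r y).2)
  choose s hs hs' using h1
  set s' : {k // k ∈ T} → {j // j ∈ S} := fun k => ⟨s k.1 k.2, hs k.1 k.2⟩ with hs'd
  by_cases h2 : Function.Surjective s'
  swap
  · rw [Function.Surjective] at h2
    push Not at h2
    obtain ⟨l, hl⟩ := h2
    refine Matrix.det_eq_zero_of_column_eq_zero (r.symm ⟨⟨l.1, ⟨0, hN l.1⟩⟩, l.2⟩) fun x => ?_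
    rw [Matrix.of_apply]
    refine hent _ _ fun h3 => hl ⟨x.1.1, x.2⟩ ?_
    rw [Equiv.apply_symm_apply, hs' _ x.2] at h3
    exact Subtype.ext (Option.some_injective _ h3)
  exfalso
  have hdim : ∀ k : {k // k ∈ T}, N' k.1 = N (s' k).1 := fun k => Comp.dim_of (hs' _ k.2)
  have hcard : ∑ k : {k // k ∈ T}, N' k.1 = ∑ j : {j // j ∈ S}, N j.1 := by
    have h3 := Fintype.card_congr r
    rw [card_IS, card_IS] at h3
    rw [Finset.sum_coe_sort T, Finset.sum_coe_sort S]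
    exact h3
  obtain ⟨t, ht⟩ := h2.hasRightInverse
  have htinj : Function.Injective t := ht.injective
  have htsurj : Function.Surjective t := by
    intro k₀
    by_contra hk₀
    have h3 : k₀ ∉ univ.image t := by
      intro h4
      obtain ⟨j, _, hj⟩ := mem_image.1 h4
      exact hk₀ ⟨j, hj⟩
    have h4 : ∑ k ∈ insert k₀ (univ.image t), N' k.1 ≤ ∑ k : {k // k ∈ T}, N' k.1 :=
      sum_le_sum_of_subset (subset_univ _)
    rw [sum_insert h3, sum_image fun i _ j _ hij => htinj hij, hcard] at h4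
    have h5 : ∑ j : {j // j ∈ S}, N' (t j).1 = ∑ j : {j // j ∈ S}, N j.1 := by
      refine sum_congr rfl fun j _ => ?_
      rw [hdim, ht j]
    have h6 := hN' k₀.1
    omega
  have hinj : Function.Injective s' := by
    intro a b hab
    obtain ⟨j, rfl⟩ := htsurj a
    obtain ⟨j', rfl⟩ := htsurj b
    rw [ht j, ht j'] at hab
    rw [hab]
  exact h (Equiv.ofBijective s' ⟨hinj, h2⟩) fun k => hs' _ k.2

/-! ### The automorphisms given by a morphism and an identification of the factors -/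

variable {T : Finset (Fin K')} {S : Finset (Fin K)}

open Classical in
/-- the automorphism given by a morphism -/
noncomputable def toP (g : Mor 𝕜 N N' m) (θ e : {k // k ∈ T} ≃ {j // j ∈ S})
    (hθ : ∀ k, N' k.1 = N (θ k).1) (he : Gd g e) : PAut 𝕜 N' m where
  perm := Equiv.Perm.ofSubtype (e.trans θ.symm)
  dim k := by
    by_cases hk : k ∈ T
    · rw [Equiv.Perm.ofSubtype_apply_of_mem _ hk]
      have h1 := hθ (θ.symm (e ⟨k, hk⟩))
      rw [Equiv.apply_symm_apply] at h1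
      have h2 : N' k = N (e ⟨k, hk⟩).1 := Comp.dim_of (he ⟨k, hk⟩)
      rw [h2, ← h1]
      rfl
    · rw [Equiv.Perm.ofSubtype_apply_of_not_mem _ hk]
  mat k := (g k).mat

lemma cast_eq' {J : ℕ} {D : Fin J → ℕ} {a b : Fin J} (h : a = b) (w : ∀ k, Fin (D k) → 𝕜)
    (i : Fin (D a)) (i' : Fin (D b)) (hi : i.1 = i'.1) : w a i = w b i' := by
  subst h
  congr 1
  exact Fin.ext hi

lemma toP_vec (g : Mor 𝕜 N N' m) (θ e : {k // k ∈ T} ≃ {j // j ∈ S})
    (hθ : ∀ k, N' k.1 = N (θ k).1) (he : Gd g e) {w : ∀ k, Fin (N' k) → 𝕜}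
    {v : ∀ j, Fin (N j) → 𝕜}
    (hwv : ∀ (k : {k // k ∈ T}) (i : Fin (N' k.1)), w k.1 i = v (θ k).1 (Fin.cast (hθ k) i))
    {k : Fin K'} (hk : k ∈ T) : (toP g θ e hθ he).vec w k =
      (g k).mat.1.1.mulVec fun i => v (e ⟨k, hk⟩).1 (Fin.cast (Comp.dim_of (he ⟨k, hk⟩)) i) := by
  classical
  rw [PAut.vec]
  congr 1
  funext i
  have h1 : (toP g θ e hθ he).perm k = (θ.symm (e ⟨k, hk⟩)).1 := by
    exact Equiv.Perm.ofSubtype_apply_of_mem (e.trans θ.symm : Equiv.Perm {k // k ∈ T}) hk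
  have h2 : N' ((toP g θ e hθ he).perm k) = N' (θ.symm (e ⟨k, hk⟩)).1 := by rw [h1]
  rw [cast_eq' h1 w _ (Fin.cast (((toP g θ e hθ he).dim k).trans h2) i) rfl, hwv]
  exact cast_eq' (by rw [Equiv.apply_symm_apply]) v _ _ rfl

lemma unit_apply' {J : ℕ} {D : Fin J → ℕ} (y z : Σ k, Fin (D k)) :
    (Pi.single y.1 (Pi.single y.2 1) : ∀ k, Fin (D k) → 𝕜) z.1 z.2 = if z = y then 1 else 0 := by
  obtain ⟨k, i⟩ := y
  obtain ⟨k', i'⟩ := z
  by_cases hk : k' = k
  · subst hk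
    simp only [Pi.single_eq_same]
    rw [Pi.single_apply]
    by_cases h : i' = i
    · rw [if_pos h, if_pos (by rw [h])]
    · rw [if_neg h, if_neg fun h1 => h (by simpa using h1)]
  · rw [Pi.single_eq_of_ne hk, if_neg fun h1 => hk (congrArg Sigma.fst h1)]
    rfl

/-- the identification of the coordinates -/
noncomputable def Theta (θ : {k // k ∈ T} ≃ {j // j ∈ S}) (hθ : ∀ k, N' k.1 = N (θ k).1) :
    {x : Σ k, Fin (N' k) // x.1 ∈ T} ≃ {x : Σ j, Fin (N j) // x.1 ∈ S} :=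
  Equiv.ofBijective (fun x => ⟨⟨(θ ⟨x.1.1, x.2⟩).1, Fin.cast (hθ _) x.1.2⟩, (θ ⟨x.1.1, x.2⟩).2⟩) (by
    constructor
    · rintro ⟨⟨k, i⟩, hk⟩ ⟨⟨k', i'⟩, hk'⟩ h
      have h1 := congrArg Subtype.val h
      simp only at h1
      rw [Sigma.mk.injEq] at h1
      obtain ⟨h2, h3⟩ := h1
      have h4 := θ.injective (Subtype.ext h2)
      rw [Subtype.mk.injEq] at h4
      subst h4
      have h5 := eq_of_heq h3
      have h6 : i = i' := Fin.cast_injective _ h5
      rw [h6]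
    · rintro ⟨⟨j, i⟩, hj⟩
      have h1 := hθ (θ.symm ⟨j, hj⟩)
      have h2 : θ (θ.symm ⟨j, hj⟩) = ⟨j, hj⟩ := Equiv.apply_symm_apply _ _
      have h3 : N (θ (θ.symm ⟨j, hj⟩)).1 = N j := by rw [h2]
      refine ⟨⟨⟨(θ.symm ⟨j, hj⟩).1, Fin.cast (h1.trans h3).symm i⟩, (θ.symm ⟨j, hj⟩).2⟩, ?_⟩
      refine Subtype.ext ?_
      simp only
      have key : ∀ {a b : Fin K} (_ : a = b) (l : Fin (N a)) (l' : Fin (N b)), l.1 = l'.1 →
          (⟨a, l⟩ : Σ j, Fin (N j)) = ⟨b, l'⟩ := by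
        intro a b h l l' hl
        subst h
        rw [Fin.ext hl]
      exact key (congrArg Subtype.val h2) _ _ rfl)

lemma Theta_apply (θ : {k // k ∈ T} ≃ {j // j ∈ S}) (hθ : ∀ k, N' k.1 = N (θ k).1)
    (x : {x : Σ k, Fin (N' k) // x.1 ∈ T}) :
    (Theta θ hθ x).1 = ⟨(θ ⟨x.1.1, x.2⟩).1, Fin.cast (hθ _) x.1.2⟩ := rfl

lemma toP_minor (g : Mor 𝕜 N N' m) (θ e : {k // k ∈ T} ≃ {j // j ∈ S})
    (hθ : ∀ k, N' k.1 = N (θ k).1) (he : Gd g e)
    (r : {x : Σ k, Fin (N' k) // x.1 ∈ T} ≃ {x : Σ k, Fin (N' k) // x.1 ∈ T}) :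
    (toP g θ e hθ he).minor r = g.minor (r.trans (Theta θ hθ)) := by
  classical
  rw [PAut.minor, Mor.minor]
  congr 1
  ext x y
  rw [Matrix.of_apply, Matrix.of_apply, Comp.dvec_of (he ⟨x.1.1, x.2⟩)]
  have h1 := toP_vec g θ e hθ he (w := Pi.single (r y).1.1 (Pi.single (r y).1.2 1))
    (v := Pi.single ((r.trans (Theta θ hθ)) y).1.1 (Pi.single ((r.trans (Theta θ hθ)) y).1.2 1)) ?_
    x.2
  · rw [h1]
  · intro k i
    rw [unit_apply' (r y).1 ⟨k.1, i⟩, unit_apply' ((r.trans (Theta θ hθ)) y).1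
      ⟨(θ k).1, Fin.cast (hθ k) i⟩]
    have h2 : (⟨k.1, i⟩ : Σ k, Fin (N' k)) = (r y).1 ↔ (⟨(θ k).1, Fin.cast (hθ k) i⟩ :
        Σ j, Fin (N j)) = ((r.trans (Theta θ hθ)) y).1 := by
      have h3 : (⟨(θ k).1, Fin.cast (hθ k) i⟩ : Σ j, Fin (N j)) =
          (Theta θ hθ ⟨⟨k.1, i⟩, k.2⟩).1 := rfl
      rw [h3, Equiv.trans_apply]
      constructor
      · intro h4
        congr 2
        exact Subtype.ext h4
      · intro h4
        exact congrArg Subtype.val ((Theta θ hθ).injective (Subtype.ext h4))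
    simp only [h2]

end comp

end Pool.Agent.U901.BB
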