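import Pool.Agent.U901.BB1

/-!
# Zero-cycles on products of Fermat hypersurfaces: the main theorem on correspondences
-/

set_option autoImplicit false
set_option linter.unusedSectionVars false
set_option linter.unusedSimpArgs false

namespace Pool.Agent.U901.BB

open MvPolynomial Finset Pool.Agent.T2H37.FK Pool.Agent.T2H37.PR

section kills

variable {𝕜 : Type*} [Field 𝕜] {K K' : ℕ} {N : Fin K → ℕ} {N' : Fin K' → ℕ} {m : ℕ}
  {T : Finset (Fin K')} {S : Finset (Fin K)}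

open Classical in
/-- the automorphism given by a morphism, or the identity -/
noncomputable def til (θ : {k // k ∈ T} ≃ {j // j ∈ S}) (hθ : ∀ k, N' k.1 = N (θ k).1)
    (g : Mor 𝕜 N N' m) : PAut 𝕜 N' m :=
  if h : ∃ e : {k // k ∈ T} ≃ {j // j ∈ S}, Gd g e then toP g θ h.choose hθ h.choose_spec
  else ⟨1, fun _ => rfl, fun _ => 1⟩

open Classical in
/-- the part of a combination of morphisms -/
noncomputable def gpart (a : Mor 𝕜 N N' m →₀ ℤ) (T : Finset (Fin K')) (S : Finset (Fin K)) :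
    Mor 𝕜 N N' m →₀ ℤ :=
  a.filter fun g => ∃ e : {k // k ∈ T} ≃ {j // j ∈ S}, Gd g e

lemma mem_gpart {a : Mor 𝕜 N N' m →₀ ℤ} {g : Mor 𝕜 N N' m} (hg : g ∈ (gpart a T S).support) :
    g ∈ a.support ∧ ∃ e : {k // k ∈ T} ≃ {j // j ∈ S}, Gd g e := by
  classical
  rw [gpart, Finsupp.support_filter, mem_filter] at hg
  exact hg

lemma gpart_apply {a : Mor 𝕜 N N' m →₀ ℤ} {g : Mor 𝕜 N N' m}
    (hg : ∃ e : {k // k ∈ T} ≃ {j // j ∈ S}, Gd g e) : gpart a T S g = a g := by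
  classical
  exact Finsupp.filter_apply_pos (fun g => ∃ e : {k // k ∈ T} ≃ {j // j ∈ S}, Gd g e) a hg

lemma perm_map (g : Mor 𝕜 N N' m) (θ e : {k // k ∈ T} ≃ {j // j ∈ S})
    (hθ : ∀ k, N' k.1 = N (θ k).1) (he : Gd g e) :
    T.map (toP g θ e hθ he).perm.toEmbedding = T := by
  classical
  refine eq_of_subset_of_card_le (fun k hk => ?_) (by rw [card_map])
  obtain ⟨l, hl, rfl⟩ := mem_map.1 hk
  have h1 : (toP g θ e hθ he).perm l = (θ.symm (e ⟨l, hl⟩)).1 :=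
    Equiv.Perm.ofSubtype_apply_of_mem (e.trans θ.symm : Equiv.Perm {k // k ∈ T}) hl
  change (toP g θ e hθ he).perm l ∈ T
  rw [h1]
  exact (θ.symm (e ⟨l, hl⟩)).2

lemma killsType_til (hN : ∀ j, 0 < N j) (hN' : ∀ k, 0 < N' k)
    (θ : {k // k ∈ T} ≃ {j // j ∈ S}) (hθ : ∀ k, N' k.1 = N (θ k).1)
    {a : Mor 𝕜 N N' m →₀ ℤ} (h : KillsComp a T S) :
    KillsType ((gpart a T S).mapDomain (til θ hθ)) T := by
  classical
  have : ∀ k, NeZero (N' k) := fun k => ⟨(hN' k).ne'⟩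
  intro S'' r d P hP v
  rw [Finsupp.sum_mapDomain_index (by intro g; simp) (by intro g b c; push_cast; ring)]
  by_cases hS : T = S''
  swap
  · refine sum_eq_zero fun g hg => ?_
    obtain ⟨_, h1⟩ := mem_gpart hg
    have h2 : til θ hθ g = toP g θ h1.choose hθ h1.choose_spec := dif_pos h1
    beta_reduce
    rw [h2, FX.minor_zero _ r (by rw [perm_map]; exact hS), zero_mul, mul_zero]
  subst hS
  set v' : ∀ j, Fin (N j) → 𝕜 := fun j => if hj : j ∈ S then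
    fun i => v (θ.symm ⟨j, hj⟩).1 (Fin.cast (by
      have h1 := hθ (θ.symm ⟨j, hj⟩)
      rw [Equiv.apply_symm_apply] at h1
      exact h1.symm) i) else 0 with hv'
  have hvv : ∀ (k : {k // k ∈ T}) (i : Fin (N' k.1)), v k.1 i = v' (θ k).1 (Fin.cast (hθ k) i) := by
    intro k i
    rw [hv']
    simp only [(θ k).2, dif_pos]
    exact cast_eq' (by rw [Subtype.coe_eta, Equiv.symm_apply_apply]) v _ _ rfl
  refine Eq.trans ?_ (h (r.trans (Theta θ hθ)) d P hP v')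
  have h3 : (a.sum fun g c => (c : 𝕜) * (g.minor (r.trans (Theta θ hθ)) *
      ∏ k ∈ T, eval ((g k).vec v') (P k))) = ∑ g ∈ (gpart a T S).support, (a g : 𝕜) *
        (g.minor (r.trans (Theta θ hθ)) * ∏ k ∈ T, eval ((g k).vec v') (P k)) := by
    rw [Finsupp.sum]
    symm
    refine sum_subset (fun g hg => (mem_gpart hg).1) fun g hg hg' => ?_
    rw [minor_zero hN hN' g _ fun e he => hg' ?_, zero_mul, mul_zero]
    rw [gpart, Finsupp.support_filter, mem_filter]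
    exact ⟨hg, e, he⟩
  rw [h3, Finsupp.sum]
  refine sum_congr rfl fun g hg => ?_
  obtain ⟨_, h1⟩ := mem_gpart hg
  have h2 : til θ hθ g = toP g θ h1.choose hθ h1.choose_spec := dif_pos h1
  rw [h2, toP_minor, gpart_apply h1]
  congr 2
  refine prod_congr rfl fun k hk => ?_
  rw [toP_vec g θ h1.choose hθ h1.choose_spec hvv hk, Comp.vec_of (h1.choose_spec ⟨k, hk⟩)]

end kills

section sub

variable {𝕜 : Type*} [Field 𝕜] [IsAlgClosed 𝕜] [CharZero 𝕜] {K₁ K₂ m : ℕ} {N₁ : Fin K₁ → ℕ}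
  {N₂ : Fin K₂ → ℕ}

/-- a linear substitution of the Segre coordinates -/
noncomputable def subHom (s : Fin K₁ ↪ Fin K₂)
    (L : ∀ i, (Fin (N₁ i) → 𝕜) →ₗ[𝕜] (Fin (N₂ (s i)) → 𝕜)) (o : ∀ k, Fin (N₂ k) → 𝕜) :
    MvPolynomial (∀ i, Fin (N₁ i)) 𝕜 →ₐ[𝕜] MvPolynomial (∀ k, Fin (N₂ k)) 𝕜 :=
  aeval fun j => ∑ l : ∀ k, Fin (N₂ k), C ((∏ k ∈ (univ.map s)ᶜ, o k (l k)) *
    ∏ i, L i (Pi.single (j i) 1) (l (s i))) * X l

lemma subHom_segre (s : Fin K₁ ↪ Fin K₂)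
    (L : ∀ i, (Fin (N₁ i) → 𝕜) →ₗ[𝕜] (Fin (N₂ (s i)) → 𝕜)) (o : ∀ k, Fin (N₂ k) → 𝕜)
    (u : ∀ i, Fin (N₁ i) → 𝕜) (w : ∀ k, Fin (N₂ k) → 𝕜) (h1 : ∀ i, w (s i) = L i (u i))
    (h2 : ∀ k, k ∉ univ.map s → w k = o k) : subHom s L o (segre u) = segre w := by
  classical
  have h3 : subHom s L o (segre u) = ∑ j : ∀ i, Fin (N₁ i), ∑ l : ∀ k, Fin (N₂ k),
      C ((∏ i, u i (j i)) * ((∏ k ∈ (univ.map s)ᶜ, o k (l k)) *
        ∏ i, L i (Pi.single (j i) 1) (l (s i)))) * X l := by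
    rw [segre, map_sum]
    refine sum_congr rfl fun j _ => ?_
    rw [map_mul, algHom_C, algebraMap_eq, subHom, aeval_X, mul_sum]
    refine sum_congr rfl fun l _ => ?_
    rw [← mul_assoc, ← C_mul]
  rw [h3, sum_comm, segre]
  refine sum_congr rfl fun l _ => ?_
  rw [← sum_mul, ← map_sum]
  congr 2
  have h4 : ∏ k, w k (l k) = (∏ i, ∑ j, u i j * L i (Pi.single j 1) (l (s i))) *
      ∏ k ∈ (univ.map s)ᶜ, o k (l k) := by
    rw [← prod_mul_prod_compl (univ.map s), prod_map]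
    congr 1
    · refine prod_congr rfl fun i _ => ?_
      rw [h1, LinearMap.pi_apply_eq_sum_univ (L i) (u i), Finset.sum_apply]
      refine sum_congr rfl fun j _ => ?_
      have h5 : (fun j_1 => if j = j_1 then 1 else 0 : Fin (N₁ i) → 𝕜) = Pi.single j 1 := by
        funext j'
        rw [Pi.single_apply]
        simp only [eq_comm]
      rw [Pi.smul_apply, smul_eq_mul, h5]
    · refine prod_congr rfl fun k hk => ?_
      rw [h2 k (mem_compl.1 hk)]
  rw [h4, Fintype.prod_sum fun i (j : Fin (N₁ i)) => u i j * L i (Pi.single j 1) (l (s i)), sum_mul]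
  refine sum_congr rfl fun j _ => ?_
  rw [prod_mul_distrib]
  ring

lemma goodP_sub [NeZero m] {f : (∀ k, Fin (N₂ k) → 𝕜) → 𝕜} (hf : GoodP m f) (s : Fin K₁ ↪ Fin K₂)
    (L : ∀ i, (Fin (N₁ i) → 𝕜) →ₗ[𝕜] (Fin (N₂ (s i)) → 𝕜)) (o : ∀ k, Fin (N₂ k) → 𝕜)
    (Φ : (∀ i, Fin (N₁ i) → 𝕜) → ∀ k, Fin (N₂ k) → 𝕜) (h1 : ∀ u i, Φ u (s i) = L i (u i))
    (h2 : ∀ u k, k ∉ univ.map s → Φ u k = o k) (h3 : ∀ u, OnP m u → OnP m (Φ u)) :
    GoodP m fun u => f (Φ u) := by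
  classical
  constructor
  · intro i c u hc hu
    have h4 : Φ (Function.update u i (c • u i)) =
        Function.update (Φ u) (s i) (c • Φ u (s i)) := by
      funext k
      by_cases hk : k = s i
      · subst hk
        rw [Function.update_self, h1, h1, Function.update_self, map_smul]
      · rw [Function.update_of_ne hk]
        by_cases hk' : k ∈ univ.map s
        · obtain ⟨i', _, rfl⟩ := mem_map.1 hk'
          have hi : i' ≠ i := fun h => hk (by rw [h])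
          rw [h1, h1, Function.update_of_ne hi]
        · rw [h2 _ k hk', h2 _ k hk']
    simp only [h4]
    exact hf.smul (s i) c (Φ u) hc (h3 u hu)
  · intro d F hF hdec t t' ht ht'
    have hrep : ∀ (τ : 𝕜) (t : Multiset (∀ i, Fin (N₁ i) → 𝕜)), RepP m d (F τ) t →
        RepP m d (subHom s L o (F τ)) (t.map Φ) := by
      intro τ t ht
      obtain ⟨h4, h5, c, hc, h6⟩ := ht
      refine ⟨by rw [Multiset.card_map, h4], ?_, c, hc, ?_⟩
      · intro w hw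
        rw [Multiset.mem_map] at hw
        obtain ⟨w', hw', rfl⟩ := hw
        exact h3 w' (h5 w' hw')
      · rw [h6, map_mul, algHom_C, algebraMap_eq, map_multiset_prod, Multiset.map_map,
          Multiset.map_map]
        congr 3
        funext w
        exact subHom_segre s L o w (Φ w) (h1 w) (h2 w)
    have h4 := hf.fam d (fun τ => subHom s L o (F τ)) (hF.map (subHom s L o))
      (fun τ => by
        obtain ⟨t, ht⟩ := hdec τ
        exact ⟨_, hrep τ t ht⟩) _ _ (hrep 0 t ht) (hrep 1 t' ht')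
    rw [Multiset.map_map, Multiset.map_map] at h4
    exact h4

end sub

section diag

variable {𝕜 : Type*} [Field 𝕜] [IsAlgClosed 𝕜] [CharZero 𝕜] {m : ℕ} [NeZero m]

/-- two factors which come from the same factor -/
lemma diag_core' {n₁ n₂ n : ℕ} (e₁ : n₁ = n) (e₂ : n₂ = n) {F : (Fin n₁ → 𝕜) → (Fin n₂ → 𝕜) → 𝕜}
    (hF : Good2 m F) {β₁ : Fin n₁ → ZMod m} {β₂ : Fin n₂ → ZMod m} (hE : Eig2 β₁ β₂ F) (hm : 3 ≤ m)
    (hmn : m + 3 ≤ 2 * n) (t : (ZMod m)ˣ) (h₁ : ∀ i, β₁ i ≠ 0) (h₂ : ∀ i, β₂ i ≠ 0)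
    (hs₁ : ∑ i, ((t : ZMod m) * β₁ i).val = m) (hs₂ : ∑ i, ((t : ZMod m) * β₂ i).val = m)
    (g₁ : FermatGroup 𝕜 n₁ m) (g₂ : FermatGroup 𝕜 n₂ m) {x : Fin n → 𝕜} (hx : OnX m x) :
    F (g₁.1.1.mulVec fun i => x (Fin.cast e₁ i)) (g₂.1.1.mulVec fun i => x (Fin.cast e₂ i)) = 0 := by
  subst e₁
  subst e₂
  obtain ⟨κ₁, σ₁, hg₁⟩ := monomial_form hm g₁
  obtain ⟨κ₂, σ₂, hg₂⟩ := monomial_form hm g₂
  have hG : Good2 m fun x y => F (mlin g₁ x) (mlin g₂ y) :=
    hF.pull (mlin g₁) (mlin g₂) (fun x hx => onX_mulVec g₁ hx) (fun x hx => onX_mulVec g₂ hx)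
  have hmd : ∀ (g : FermatGroup 𝕜 n₂ m) (κ : Fin n₂ → ZMod m) (σ : Equiv.Perm (Fin n₂)),
      (∀ l j, g.1.1 l j = if j = σ l then e 𝕜 (κ l) else 0) → ∀ (h : Fin n₂ → ZMod m)
      (x : Fin n₂ → 𝕜), mlin g (dg h x) = dg (fun l => h (σ l)) (mlin g x) := by
    intro g κ σ hg h x
    rw [mlin_apply, mlin_apply, mulVec_of_mono hg, mulVec_of_mono hg]
    funext l
    simp only [dg]
    ring
  have hpr : ∀ (β h : Fin n₂ → ZMod m) (σ : Equiv.Perm (Fin n₂)),
      T2H37.FK.pr β (fun l => h (σ l)) = T2H37.FK.pr (fun l => β (σ.symm l)) h := by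
    intro β h σ
    rw [T2H37.FK.pr, T2H37.FK.pr, ← Equiv.sum_comp σ fun l => β (σ.symm l) * h l]
    refine sum_congr rfl fun l _ => ?_
    rw [Equiv.symm_apply_apply]
  have hGE : Eig2 (fun l => β₁ (σ₁.symm l)) (fun l => β₂ (σ₂.symm l))
      fun x y => F (mlin g₁ x) (mlin g₂ y) := by
    intro g h x y
    simp only
    rw [hmd g₁ κ₁ σ₁ hg₁, hmd g₂ κ₂ σ₂ hg₂, hE, hpr, hpr]
  exact hG.diag_core hGE hm hmn t (fun l => h₁ _) (fun l => h₂ _)
    (by rw [Equiv.sum_comp σ₁.symm fun l => ((t : ZMod m) * β₁ l).val]; exact hs₁)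
    (by rw [Equiv.sum_comp σ₂.symm fun l => ((t : ZMod m) * β₂ l).val]; exact hs₂) hx

end diag

section main

variable {𝕜 : Type*} [Field 𝕜] [IsAlgClosed 𝕜] [CharZero 𝕜] {K K' m : ℕ} {N : Fin K → ℕ}
  {N' : Fin K' → ℕ}

lemma onP_mor (g : Mor 𝕜 N N' m) {v : ∀ j, Fin (N j) → 𝕜} (hv : OnP m v) :
    OnP m fun k => (g k).vec v :=
  fun k => ⟨(g k).vec_ne_zero fun j => (hv j).1, (g k).vec_sum fun j => (hv j).2⟩

lemma onX_cast {a b : ℕ} (h : a = b) {x : Fin b → 𝕜} (hx : OnX m x) :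
    OnX m fun i : Fin a => x (Fin.cast h i) := by
  subst h
  exact hx

/-- the sum of the values -/
noncomputable def wM (a : Mor 𝕜 N N' m →₀ ℤ) (F : (∀ k, Fin (N' k) → 𝕜) → 𝕜)
    (v : ∀ j, Fin (N j) → 𝕜) : 𝕜 :=
  a.sum fun g c => (c : 𝕜) * F fun k => (g k).vec v

/-- the components vanish at the images unless the factors come from different factors -/
lemma vanish [NeZero m] {F : (∀ k, Fin (N' k) → 𝕜) → 𝕜} (hF : GoodP m F) (hm : 3 ≤ m)
    (hmN' : ∀ k, m + 3 ≤ 2 * N' k) {α : ∀ k, Fin (N' k) → ZMod m} {T : Finset (Fin K')}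
    (hT : ∀ k, k ∈ T ↔ α k ≠ 0) (g : Mor 𝕜 N N' m) {v : ∀ j, Fin (N j) → 𝕜} (hv : OnP m v)
    (h : ∀ (S : Finset (Fin K)) (e : {k // k ∈ T} ≃ {j // j ∈ S}), ¬ Gd g e) :
    T2H37.PR.compP F α (fun k => (g k).vec v) = 0 := by
  classical
  have hN' : ∀ k, 3 ≤ N' k := by
    intro k
    have := hmN' k
    omega
  have hw := onP_mor g hv
  rcases hF.alpha_cases hm hN' hmN' α with h3 | ⟨h3, t, ht⟩
  · exact h3 _ hw
  by_cases h1 : ∃ k ∈ T, (g k).idx = none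
  · obtain ⟨k, hk, h1⟩ := h1
    obtain ⟨i, hi⟩ := Comp.vec_none h1 v
    exact compP_coord_zero (h3 k ((hT k).1 hk) i) hi
  push Not at h1
  have h2 : ∀ k : {k // k ∈ T}, ∃ j, (g k.1).idx = some j := by
    intro k
    rcases hc : (g k.1).idx with _ | j
    · exact absurd hc (h1 k.1 k.2)
    · exact ⟨j, rfl⟩
  choose s hs using h2
  by_cases hinj : Function.Injective s
  · exfalso
    refine h (univ.image s) (Equiv.ofBijective (fun k => ⟨s k, mem_image_of_mem s (mem_univ k)⟩)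
      ⟨fun a b hab => hinj (congrArg Subtype.val hab), ?_⟩) fun k => hs k
    rintro ⟨j, hj⟩
    obtain ⟨k, _, hk⟩ := mem_image.1 hj
    exact ⟨k, Subtype.ext hk⟩
  · rw [Function.Injective] at hinj
    push Not at hinj
    obtain ⟨k₁, k₂, h4, h5⟩ := hinj
    have hk : k₁.1 ≠ k₂.1 := fun h => h5 (Subtype.ext h)
    have hs₂ : (g k₂.1).idx = some (s k₁) := by rw [h4]; exact hs k₂
    have h6 := (hF.compP α).slice2 hw hk
    have h7 := diag_core' (Comp.dim_of (hs k₁)) (Comp.dim_of hs₂) h6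
      (slice_eig hk fun k => (g k).vec v) hm (by
        have := hmN' k₁.1
        rw [← Comp.dim_of (hs k₁)]
        exact this) t (h3 _ ((hT _).1 k₁.2)) (h3 _ ((hT _).1 k₂.2)) (ht _ ((hT _).1 k₁.2))
      (ht _ ((hT _).1 k₂.2)) (g k₁.1).mat (g k₂.1).mat (hv (s k₁))
    rw [← Comp.vec_of (hs k₁), ← Comp.vec_of hs₂, Function.update_eq_self,
      Function.update_eq_self] at h7
    exact h7

lemma sum_gpart (a : Mor 𝕜 N N' m →₀ ℤ) (T : Finset (Fin K')) (f : (∀ k, Fin (N' k) → 𝕜) → 𝕜)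
    (v : ∀ j, Fin (N j) → 𝕜) (h : ∀ g : Mor 𝕜 N N' m, (∀ (S : Finset (Fin K))
      (e : {k // k ∈ T} ≃ {j // j ∈ S}), ¬ Gd g e) → f (fun k => (g k).vec v) = 0) :
    wM a f v = ∑ S : Finset (Fin K), wM (gpart a T S) f v := by
  classical
  have h1 : ∀ S : Finset (Fin K), wM (gpart a T S) f v = ∑ g ∈ a.support,
      if ∃ e : {k // k ∈ T} ≃ {j // j ∈ S}, Gd g e then (a g : 𝕜) * f (fun k => (g k).vec v)
      else 0 := by
    intro S
    rw [← sum_filter, wM, Finsupp.sum]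
    have h2 : (gpart a T S).support =
        a.support.filter fun g => ∃ e : {k // k ∈ T} ≃ {j // j ∈ S}, Gd g e := by
      rw [gpart, Finsupp.support_filter]
    rw [h2]
    refine sum_congr rfl fun g hg => ?_
    rw [gpart_apply (mem_filter.1 hg).2]
  simp only [h1]
  rw [sum_comm, wM, Finsupp.sum]
  refine sum_congr rfl fun g _ => ?_
  by_cases h2 : ∃ (S : Finset (Fin K)) (e : {k // k ∈ T} ≃ {j // j ∈ S}), Gd g e
  · obtain ⟨S, e, he⟩ := h2
    rw [sum_eq_single S, if_pos ⟨e, he⟩]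
    · intro S' _ hS'
      rw [if_neg]
      rintro ⟨e', he'⟩
      exact hS' (he'.unique he)
    · intro h3
      exact absurd (mem_univ _) h3
  · push Not at h2
    rw [h g h2, mul_zero]
    symm
    refine sum_eq_zero fun S _ => ?_
    simp

lemma wM_kill [NeZero m] {F : (∀ k, Fin (N' k) → 𝕜) → 𝕜} (hF : GoodP m F) (hm : 3 ≤ m)
    (hN : ∀ j, 0 < N j) (hmN' : ∀ k, m + 3 ≤ 2 * N' k) {α : ∀ k, Fin (N' k) → ZMod m}
    {T : Finset (Fin K')} (hT : ∀ k, k ∈ T ↔ α k ≠ 0) {S : Finset (Fin K)}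
    {a : Mor 𝕜 N N' m →₀ ℤ} (h : KillsComp a T S) {v : ∀ j, Fin (N j) → 𝕜} (hv : OnP m v) :
    wM (gpart a T S) (T2H37.PR.compP F α) v = 0 := by
  classical
  have hN' : ∀ k, 3 ≤ N' k := by
    intro k
    have := hmN' k
    omega
  by_cases hne : ∃ g₀, g₀ ∈ (gpart a T S).support
  swap
  · push Not at hne
    exact sum_eq_zero fun g hg => absurd hg (hne g)
  obtain ⟨g₀, hg₀⟩ := hne
  obtain ⟨_, θ, hθg⟩ := mem_gpart hg₀
  have hθ : ∀ k, N' k.1 = N (θ k).1 := fun k => Comp.dim_of (hθg k)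
  have ho : ∀ k, ∃ o : Fin (N' k) → 𝕜, OnX m o := fun k => by
    obtain ⟨o, _, ho, _⟩ := exists_o (𝕜 := 𝕜) (m := m) (hN' k)
    exact ⟨o, ho⟩
  choose o ho using ho
  set w : ∀ k, Fin (N' k) → 𝕜 := fun k => if hk : k ∈ T then
    fun i => v (θ ⟨k, hk⟩).1 (Fin.cast (hθ ⟨k, hk⟩) i) else o k with hw
  have hwP : OnP m w := by
    intro k
    by_cases hk : k ∈ T
    · have h1 : w k = fun i => v (θ ⟨k, hk⟩).1 (Fin.cast (hθ ⟨k, hk⟩) i) := dif_pos hk
      rw [h1]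
      exact onX_cast _ (hv _)
    · have h1 : w k = o k := dif_neg hk
      rw [h1]
      exact ho k
  have hwv : ∀ (k : {k // k ∈ T}) (i : Fin (N' k.1)), w k.1 i = v (θ k).1 (Fin.cast (hθ k) i) := by
    intro k i
    have h1 : w k.1 = fun i => v (θ ⟨k.1, k.2⟩).1 (Fin.cast (hθ ⟨k.1, k.2⟩) i) := dif_pos k.2
    rw [h1]
  have h1 := hF.wQ_type hm hN' hmN' _ hT (killsType_til hN (fun k => by have := hN' k; omega) θ hθ h) hwP
  rw [wQ, Finsupp.sum_mapDomain_index (by intro g; simp) (by intro g b c; push_cast; ring)] at h1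
  rw [wM, ← h1]
  refine sum_congr rfl fun g hg => ?_
  obtain ⟨_, h2⟩ := mem_gpart hg
  have h3 : til θ hθ g = toP g θ h2.choose hθ h2.choose_spec := dif_pos h2
  beta_reduce
  congr 1
  refine hF.comp_congr (fun k => by have := hN' k; omega) (onP_mor g hv) (onP_vec _ hwP)
    fun k hk => ?_
  rw [h3, toP_vec g θ h2.choose hθ h2.choose_spec hwv ((hT k).2 hk),
    Comp.vec_of (h2.choose_spec ⟨k, (hT k).2 hk⟩)]

lemma lift_map {K₁ : ℕ} {N₁ : Fin K₁ → ℕ} (f : (∀ i, Fin (N₁ i) → 𝕜) → 𝕜)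
    (p : Pts 𝕜 N m → Pts 𝕜 N₁ m) (z : Pts 𝕜 N m →₀ ℤ) :
    FX.lift f (z.mapDomain p) = ∑ x ∈ z.support, (z x : 𝕜) * f fun i => (p x i).1.rep := by
  rw [FX.lift, Finsupp.liftAddHom_apply, Finsupp.sum_mapDomain_index (by intro g; simp)
    (by intro g b c; rw [map_add])]
  rfl

lemma wM_tors [NeZero m] {F : (∀ k, Fin (N' k) → 𝕜) → 𝕜} (hF : GoodP m F)
    (hN' : ∀ k, 3 ≤ N' k) {α : ∀ k, Fin (N' k) → ZMod m}
    {T : Finset (Fin K')} (hT : ∀ k, k ∈ T ↔ α k ≠ 0) {S : Finset (Fin K)} (g : Mor 𝕜 N N' m)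
    {e : {k // k ∈ T} ≃ {j // j ∈ S}} (he : Gd g e) {z : Pts 𝕜 N m →₀ ℤ}
    (hz : Tors (z.mapDomain (pr S))) :
    ∑ x ∈ z.support, (z x : 𝕜) * T2H37.PR.compP F α (fun k => (g k).vec fun j => (x j).1.rep) = 0 := by
  classical
  have ho : ∀ k, ∃ o : Fin (N' k) → 𝕜, OnX m o := fun k => by
    obtain ⟨o, _, ho, _⟩ := exists_o (𝕜 := 𝕜) (m := m) (hN' k)
    exact ⟨o, ho⟩
  choose o ho using ho
  set iso := S.orderIsoOfFin rfl with hiso
  have hemb : ∀ i, S.orderEmbOfFin rfl i = (iso i).1 := fun i => rfl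
  set s : Fin S.card ↪ Fin K' := ⟨fun i => (e.symm (iso i)).1, fun i j hij =>
    iso.injective (e.symm.injective (Subtype.ext hij))⟩ with hs
  have hsT : ∀ i, s i ∈ T := fun i => (e.symm (iso i)).2
  have hse : ∀ i, e ⟨s i, hsT i⟩ = iso i := fun i => Equiv.apply_symm_apply e _
  have hd : ∀ i, N' (s i) = N (S.orderEmbOfFin rfl i) := by
    intro i
    rw [hemb, ← hse i]
    exact Comp.dim_of (he ⟨s i, hsT i⟩)
  have hd' : ∀ k (hk : k ∈ T), N' k = N (S.orderEmbOfFin rfl (iso.symm (e ⟨k, hk⟩))) := by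
    intro k hk
    rw [hemb, OrderIso.apply_symm_apply]
    exact Comp.dim_of (he ⟨k, hk⟩)
  set Φ : (∀ i, Fin (N (S.orderEmbOfFin rfl i)) → 𝕜) → ∀ k, Fin (N' k) → 𝕜 := fun u k =>
    if hk : k ∈ T then (g k).mat.1.1.mulVec fun l => u (iso.symm (e ⟨k, hk⟩)) (Fin.cast (hd' k hk) l)
    else o k with hΦ
  have hΦT : ∀ u k (hk : k ∈ T), Φ u k =
      (g k).mat.1.1.mulVec fun l => u (iso.symm (e ⟨k, hk⟩)) (Fin.cast (hd' k hk) l) :=
    fun u k hk => dif_pos hk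
  have hG : GoodP m fun u => T2H37.PR.compP F α (Φ u) := by
    refine goodP_sub (hF.compP α) s
      (fun i => (mlin (g (s i)).mat).comp (LinearMap.funLeft 𝕜 𝕜 (Fin.cast (hd i)))) o Φ ?_ ?_ ?_
    · intro u i
      rw [hΦT u _ (hsT i), LinearMap.comp_apply, mlin_apply]
      congr 1
      funext l
      rw [LinearMap.funLeft_apply]
      exact cast_eq' (D := fun i => N (S.orderEmbOfFin rfl i))
        (by rw [hse i, OrderIso.symm_apply_apply]) u _ _ rfl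
    · intro u k hk
      refine dif_neg fun hkT => hk ?_
      rw [mem_map]
      refine ⟨iso.symm (e ⟨k, hkT⟩), mem_univ _, ?_⟩
      change (e.symm (iso (iso.symm (e ⟨k, hkT⟩)))).1 = k
      rw [OrderIso.apply_symm_apply, Equiv.symm_apply_apply]
    · intro u hu k
      by_cases hk : k ∈ T
      · rw [hΦT u k hk]
        exact onX_mulVec (g k).mat (onX_cast _ (hu _))
      · have h1 : Φ u k = o k := dif_neg hk
        rw [h1]
        exact ho k
  have key : ∀ y : ∀ j, Fin (N j) → 𝕜, OnP m y → T2H37.PR.compP F α (fun k => (g k).vec y) =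
      T2H37.PR.compP F α (Φ fun i => y (S.orderEmbOfFin rfl i)) := by
    intro y hy
    have hΦy : OnP m (Φ fun i => y (S.orderEmbOfFin rfl i)) := by
      intro k
      by_cases hk : k ∈ T
      · rw [hΦT (fun i => y (S.orderEmbOfFin rfl i)) k hk]
        exact onX_mulVec (g k).mat (onX_cast (hd' k hk) (hy _))
      · have h1 : Φ (fun i => y (S.orderEmbOfFin rfl i)) k = o k := dif_neg hk
        rw [h1]
        exact ho k
    refine hF.comp_congr (fun k => by have := hN' k; omega) (onP_mor g hy) hΦy fun k hk => ?_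
    have hkT := (hT k).2 hk
    refine ((Comp.vec_of (he ⟨k, hkT⟩) y).trans ?_).trans
      (hΦT (fun i => y (S.orderEmbOfFin rfl i)) k hkT).symm
    congr 1
    funext l
    refine cast_eq' (D := N) (a := (e ⟨k, hkT⟩).1)
      (b := S.orderEmbOfFin rfl (iso.symm (e ⟨k, hkT⟩))) ?_ y _ _ rfl
    rw [hemb, OrderIso.apply_symm_apply]
  obtain ⟨j, hj, hz⟩ := hz
  have h1 := FX.lift_torsion hG hj hz
  rw [lift_map] at h1
  refine Eq.trans (sum_congr rfl fun x _ => ?_) h1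
  congr 1
  exact key _ (onP_rep x)

lemma psi_push (a : Mor 𝕜 N N' m →₀ ℤ) (ψ : (Pts 𝕜 N' m →₀ ℤ) →+ 𝕜) (z : Pts 𝕜 N m →₀ ℤ) :
    ψ (push a z) =
      ∑ x ∈ z.support, (z x : 𝕜) * ∑ g ∈ a.support, (a g : 𝕜) * ψ (Finsupp.single (g.act x) 1) := by
  rw [push, Finsupp.sum, map_sum]
  have h3 : ∀ g : Mor 𝕜 N N' m, ψ (a g • z.mapDomain g.act) =
      ∑ x ∈ z.support, (z x : 𝕜) * ((a g : 𝕜) * ψ (Finsupp.single (g.act x) 1)) := by
    intro g
    rw [map_zsmul, Finsupp.mapDomain, Finsupp.sum, map_sum, zsmul_eq_mul, mul_sum]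
    refine sum_congr rfl fun x _ => ?_
    have h4 : (Finsupp.single (g.act x) (z x) : Pts 𝕜 N' m →₀ ℤ) =
        z x • Finsupp.single (g.act x) 1 := by
      rw [Finsupp.smul_single, smul_eq_mul, mul_one]
    rw [h4, map_zsmul, zsmul_eq_mul]
    ring
  simp only [h3]
  rw [sum_comm]
  simp only [← mul_sum]

lemma wM_ext [NeZero m] (a : Mor 𝕜 N N' m →₀ ℤ) (ψ : (Pts 𝕜 N' m →₀ ℤ) →+ 𝕜) (x : Pts 𝕜 N m) :
    wM a (extP fun x : Pts 𝕜 N' m => ψ (Finsupp.single x 1)) (fun k => (x k).1.rep) =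
      ∑ g ∈ a.support, (a g : 𝕜) * ψ (Finsupp.single (g.act x) 1) := by
  rw [wM, Finsupp.sum]
  refine sum_congr rfl fun g _ => ?_
  rw [extP_of _ (onP_mor g (onP_rep x))]
  rfl

lemma sum_wM [NeZero m] (a : Mor 𝕜 N N' m →₀ ℤ) (f : (∀ k, Fin (N' k) → 𝕜) → 𝕜)
    (w : ∀ k, Fin (N k) → 𝕜) :
    ∑ α : ∀ k, Fin (N' k) → ZMod m, wM a (T2H37.PR.compP f α) w =
      (Fintype.card (∀ k, Fin (N' k) → ZMod m) : 𝕜) * wM a f w := by
  simp only [wM, Finsupp.sum]
  rw [sum_comm]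
  simp only [← mul_sum, sum_compP]
  rw [mul_sum]
  refine sum_congr rfl fun g _ => ?_
  ring

/-- **The theorem on correspondences.** Let `a` be a combination of morphisms from `X` to `Y` and `z` a
zero-cycle on `X`. If for all sets `T` of factors of `Y` and `S` of factors of `X` the component of
type `S` of the pullback of the forms of type `T` is zero, or the push-forward of `z` to `X S` is
torsion modulo rational equivalence, then the image of `z` is torsion modulo rational equivalence. -/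
theorem push_tors (hm : 3 ≤ m) (hmN : ∀ j, m + 3 ≤ 2 * N j) (hmN' : ∀ k, m + 3 ≤ 2 * N' k)
    (a : Mor 𝕜 N N' m →₀ ℤ) (z : Pts 𝕜 N m →₀ ℤ)
    (h : ∀ (T : Finset (Fin K')) (S : Finset (Fin K)), KillsComp a T S ∨
      Tors (z.mapDomain (pr S))) : Tors (push a z) := by
  classical
  have : NeZero m := ⟨by omega⟩
  have hN' : ∀ k, 3 ≤ N' k := by
    intro k
    have := hmN' k
    omega
  refine torsion_of' _ fun ψ hψ0 => ?_
  set F : (∀ k, Fin (N' k) → 𝕜) → 𝕜 := extP fun x : Pts 𝕜 N' m => ψ (Finsupp.single x 1) with hF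
  have hFG : GoodP m F := goodP_of ψ hψ0
  rw [psi_push]
  have h1 : ∀ x : Pts 𝕜 N m, ∑ g ∈ a.support, (a g : 𝕜) * ψ (Finsupp.single (g.act x) 1) =
      wM a F fun k => (x k).1.rep := fun x => (wM_ext a ψ x).symm
  simp only [h1]
  refine mul_left_cancel₀ (card_ne_zeroP (𝕜 := 𝕜) (N := N') (m := m)) ?_
  rw [mul_zero, mul_sum]
  have h2 : ∀ x : Pts 𝕜 N m, (Fintype.card (∀ k, Fin (N' k) → ZMod m) : 𝕜) *
      ((z x : 𝕜) * wM a F fun k => (x k).1.rep) =
      ∑ α : ∀ k, Fin (N' k) → ZMod m, (z x : 𝕜) * wM a (T2H37.PR.compP F α) fun k => (x k).1.rep := by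
    intro x
    rw [← mul_sum, sum_wM]
    ring
  simp only [h2]
  rw [sum_comm]
  refine sum_eq_zero fun α _ => ?_
  set T : Finset (Fin K') := univ.filter fun k => α k ≠ 0 with hT
  have hTα : ∀ k, k ∈ T ↔ α k ≠ 0 := fun k => by simp [hT]
  have h3 : ∀ x : Pts 𝕜 N m, (z x : 𝕜) * wM a (T2H37.PR.compP F α) (fun k => (x k).1.rep) =
      ∑ S : Finset (Fin K), (z x : 𝕜) * wM (gpart a T S) (T2H37.PR.compP F α) fun k => (x k).1.rep := by
    intro x
    rw [sum_gpart a T _ _ fun g hg => vanish hFG hm hmN' hTα g (onP_rep x) hg, mul_sum]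
  simp only [h3]
  rw [sum_comm]
  refine sum_eq_zero fun S _ => ?_
  rcases h T S with h4 | h4
  · refine sum_eq_zero fun x _ => ?_
    rw [wM_kill hFG hm (fun j => by have := hmN j; omega) hmN' hTα h4 (onP_rep x), mul_zero]
  · have h5 : ∀ x : Pts 𝕜 N m, (z x : 𝕜) * wM (gpart a T S) (T2H37.PR.compP F α)
        (fun k => (x k).1.rep) = ∑ g ∈ (gpart a T S).support, (gpart a T S g : 𝕜) *
          ((z x : 𝕜) * T2H37.PR.compP F α (fun k => (g k).vec fun k => (x k).1.rep)) := by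
      intro x
      rw [wM, Finsupp.sum, mul_sum]
      refine sum_congr rfl fun g _ => ?_
      ring
    simp only [h5]
    rw [sum_comm]
    refine sum_eq_zero fun g hg => ?_
    rw [← mul_sum]
    obtain ⟨_, e, he⟩ := mem_gpart hg
    rw [wM_tors hFG hN' hTα g he h4, mul_zero]

end main

end Pool.Agent.U901.BB
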