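import Pool.Agent.U901.BB2

/-!
# Zero-cycles on products of Fermat hypersurfaces: projections and the filtration
-/

set_option autoImplicit false
set_option linter.unusedSectionVars false
set_option linter.unusedSimpArgs false

namespace Pool.Agent.U901.BB

open MvPolynomial Finset Pool.Agent.T2H37.FK Pool.Agent.T2H37.PR

section proj

variable {𝕜 : Type*} [Field 𝕜] {K K' : ℕ} {N : Fin K → ℕ} {N' : Fin K' → ℕ} {m : ℕ}

/-- the composition of a correspondence with a projection -/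
noncomputable def cproj (T₀ : Finset (Fin K')) (a : Mor 𝕜 N N' m →₀ ℤ) :
    Mor 𝕜 N (fun i : Fin T₀.card => N' (T₀.orderEmbOfFin rfl i)) m →₀ ℤ :=
  a.mapDomain fun g i => g (T₀.orderEmbOfFin rfl i)

lemma push_cproj (T₀ : Finset (Fin K')) (a : Mor 𝕜 N N' m →₀ ℤ) (z : Pts 𝕜 N m →₀ ℤ) :
    push (cproj T₀ a) z = (push a z).mapDomain (pr T₀) := by
  rw [push, cproj, Finsupp.sum_mapDomain_index (by intro g; simp) (by intro g b c; rw [add_smul])]
  rw [push, Finsupp.sum, Finsupp.sum, Finsupp.mapDomain_finsetSum]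
  refine sum_congr rfl fun g _ => ?_
  rw [Finsupp.mapDomain_smul, ← Finsupp.mapDomain_comp]
  rfl

lemma ext_dep {ι κ : Type*} (s : ι ↪ κ) (B : κ → Type*) [∀ k, Inhabited (B k)]
    (b : ∀ i, B (s i)) : ∃ c : ∀ k, B k, ∀ i, c (s i) = b i := by
  classical
  refine ⟨fun k => if h : ∃ i, s i = k then h.choose_spec ▸ b h.choose else default, fun i => ?_⟩
  have h : ∃ i', s i' = s i := ⟨i, rfl⟩
  beta_reduce
  rw [dif_pos h]
  have key : ∀ (i' : ι) (e : s i' = s i), (e ▸ b i' : B (s i)) = b i := by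
    intro i' e
    have := s.injective e
    subst this
    rfl
  exact key _ _

/-- the coordinates of the factors in the image -/
noncomputable def EE (s : Fin K ↪ Fin K') (T : Finset (Fin K)) :
    {x : Σ i, Fin (N' (s i)) // x.1 ∈ T} ≃ {x : Σ k, Fin (N' k) // x.1 ∈ T.map s} :=
  Equiv.ofBijective (fun x => ⟨⟨s x.1.1, x.1.2⟩, mem_map_of_mem s x.2⟩) (by
    constructor
    · rintro ⟨⟨k, i⟩, hk⟩ ⟨⟨k', i'⟩, hk'⟩ h
      have h1 := congrArg Subtype.val h
      simp only at h1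
      rw [Sigma.mk.injEq] at h1
      obtain ⟨h2, h3⟩ := h1
      have h4 := s.injective h2
      subst h4
      rw [eq_of_heq h3]
    · rintro ⟨⟨k, i⟩, hk⟩
      obtain ⟨l, hl, h⟩ := mem_map.1 hk
      subst h
      exact ⟨⟨⟨l, i⟩, hl⟩, rfl⟩)

lemma killsComp_cproj {T₀ : Finset (Fin K')} {a : Mor 𝕜 N N' m →₀ ℤ} {T : Finset (Fin T₀.card)}
    {S : Finset (Fin K)} (h : KillsComp a (T.map (T₀.orderEmbOfFin rfl).toEmbedding) S) :
    KillsComp (cproj T₀ a) T S := by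
  intro r d P hP v
  set s : Fin T₀.card ↪ Fin K' := (T₀.orderEmbOfFin rfl).toEmbedding with hs
  obtain ⟨c, hc⟩ := ext_dep s (fun k => ℕ × MvPolynomial (Fin (N' k)) 𝕜) fun i => (d i, P i)
  have h1 := h ((EE s T).symm.trans r) (fun k => (c k).1) (fun k => (c k).2) (by
    intro k hk
    obtain ⟨i, hi, rfl⟩ := mem_map.1 hk
    rw [hc i]
    exact hP i hi) v
  rw [← h1, cproj, Finsupp.sum_mapDomain_index (by intro g; simp)
    (by intro g b c; push_cast; ring)]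
  refine sum_congr rfl fun g _ => ?_
  have h2 : Mor.minor (N' := fun i : Fin T₀.card => N' (T₀.orderEmbOfFin rfl i))
      (fun i => g (T₀.orderEmbOfFin rfl i)) r = g.minor ((EE s T).symm.trans r) := by
    rw [Mor.minor, Mor.minor, ← Matrix.det_submatrix_equiv_self (EE s T)]
    congr 1
    ext x y
    rw [Matrix.of_apply, Matrix.submatrix_apply, Matrix.of_apply, Equiv.trans_apply,
      Equiv.symm_apply_apply]
    rfl
  have h3 : ∏ k ∈ T.map s, eval ((g k).vec v) (c k).2 =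
      ∏ i ∈ T, eval ((g (s i)).vec v) (P i) := by
    rw [prod_map]
    refine prod_congr rfl fun i _ => ?_
    rw [hc i]
  beta_reduce
  rw [h2, h3]
  rfl

lemma killsComp_of_dim (hN : ∀ j, 0 < N j) (hN' : ∀ k, 0 < N' k) (a : Mor 𝕜 N N' m →₀ ℤ)
    {T : Finset (Fin K')} {S : Finset (Fin K)} (h : dimOf N' T ≠ dimOf N S) : KillsComp a T S := by
  intro r d P hP v
  refine sum_eq_zero fun g _ => ?_
  beta_reduce
  rw [minor_zero hN hN' g r fun e he => h he.dimOf, zero_mul, mul_zero]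

lemma dimOf_mono {T T' : Finset (Fin K)} (h : T ⊆ T') : dimOf N T ≤ dimOf N T' :=
  sum_le_sum_of_subset h

end proj

section fil

variable {𝕜 : Type*} [Field 𝕜] [IsAlgClosed 𝕜] [CharZero 𝕜] {K K' m : ℕ} {N : Fin K → ℕ}
  {N' : Fin K' → ℕ}

/-- the action of correspondences on the filtration -/
theorem push_fil (hm : 3 ≤ m) (hmN : ∀ j, m + 3 ≤ 2 * N j) (hmN' : ∀ k, m + 3 ≤ 2 * N' k)
    (a : Mor 𝕜 N N' m →₀ ℤ) {ν μ : ℕ} (h : ∀ (T : Finset (Fin K')) (S : Finset (Fin K)),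
      dimOf N' T < μ → ν ≤ dimOf N S → KillsComp a T S) {z : Pts 𝕜 N m →₀ ℤ}
    (hz : z ∈ Fil 𝕜 N m ν) : push a z ∈ Fil 𝕜 N' m μ := by
  intro T₀ hT₀
  rw [← push_cproj]
  refine push_tors hm hmN (fun k => hmN' _) _ z fun T S => ?_
  by_cases hS : dimOf N S < ν
  · exact Or.inr (hz S hS)
  · left
    refine killsComp_cproj (h _ _ (lt_of_le_of_lt (dimOf_mono ?_) hT₀) (not_lt.1 hS))
    intro k hk
    obtain ⟨i, _, rfl⟩ := mem_map.1 hk
    exact T₀.orderEmbOfFin_mem rfl i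

theorem push_fil_self (hm : 3 ≤ m) (hmN : ∀ j, m + 3 ≤ 2 * N j) (hmN' : ∀ k, m + 3 ≤ 2 * N' k)
    (a : Mor 𝕜 N N' m →₀ ℤ) {ν : ℕ} {z : Pts 𝕜 N m →₀ ℤ}
    (hz : z ∈ Fil 𝕜 N m ν) : push a z ∈ Fil 𝕜 N' m ν :=
  push_fil hm hmN hmN' a (fun T S h1 h2 => killsComp_of_dim (fun j => by have := hmN j; omega)
    (fun j => by have := hmN' j; omega) a (by omega)) hz

theorem push_fil_succ (hm : 3 ≤ m) (hmN : ∀ j, m + 3 ≤ 2 * N j) (hmN' : ∀ k, m + 3 ≤ 2 * N' k)
    (a : Mor 𝕜 N N' m →₀ ℤ) {ν : ℕ}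
    (h : ∀ (T : Finset (Fin K')) (S : Finset (Fin K)), dimOf N' T = ν → KillsComp a T S)
    {z : Pts 𝕜 N m →₀ ℤ} (hz : z ∈ Fil 𝕜 N m ν) : push a z ∈ Fil 𝕜 N' m (ν + 1) :=
  push_fil hm hmN hmN' a (fun T S h1 h2 => by
    by_cases h3 : dimOf N' T = ν
    · exact h T S h3
    · exact killsComp_of_dim (fun j => by have := hmN j; omega)
        (fun j => by have := hmN' j; omega) a (by omega)) hz

end fil

end Pool.Agent.U901.BB
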