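import Pool.Agent.U901.BB3

/-!
# Zero-cycles on products: projections respect rational equivalence
-/

set_option autoImplicit false
set_option linter.unusedSectionVars false
set_option linter.unusedSimpArgs false

namespace Pool.Agent.U901.BB

open MvPolynomial Finset Pool.Agent.T2H37.FK Pool.Agent.T2H37.PR

section rank

variable {𝕜 : Type*} [Field 𝕜] [Infinite 𝕜]

/-- families of tensors of rank one over the affine line -/
lemma rank_one {A B : Type*} (B₀ : Finset B) (M : A → B → Polynomial 𝕜)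
    (hM : ∀ a, ∀ b, b ∉ B₀ → M a b = 0)
    (h : ∀ t : 𝕜, ∃ (x : A → 𝕜) (y : B → 𝕜), (∃ a, x a ≠ 0) ∧ (∃ b, y b ≠ 0) ∧
      ∀ a b, (M a b).eval t = x a * y b) :
    ∃ v : B → Polynomial 𝕜, ∀ (t : 𝕜) (x : A → 𝕜) (y : B → 𝕜), (∃ a, x a ≠ 0) → (∃ b, y b ≠ 0) →
      (∀ a b, (M a b).eval t = x a * y b) → ∃ c : 𝕜, c ≠ 0 ∧ ∀ b, (v b).eval t = c * y b := by
  classical
  obtain ⟨x₀, y₀, ⟨a₀, ha₀⟩, ⟨b₀, hb₀⟩, h0⟩ := h 0
  have hM0 : M a₀ b₀ ≠ 0 := by
    intro h1
    have h2 := h0 a₀ b₀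
    rw [h1, Polynomial.eval_zero] at h2
    exact mul_ne_zero ha₀ hb₀ h2.symm
  have hb₀' : b₀ ∈ B₀ := by
    by_contra h1
    exact hM0 (hM a₀ b₀ h1)
  set I : Ideal (Polynomial 𝕜) := Ideal.span ((fun b => M a₀ b) '' (B₀ : Set B)) with hI
  obtain ⟨g, hg⟩ := (IsPrincipalIdealRing.principal I).principal
  have hgI : g ∈ I := by
    rw [hg]
    exact Submodule.mem_span_singleton_self g
  have hdvd : ∀ b, ∃ v, M a₀ b = g * v := by
    intro b
    by_cases hb : b ∈ B₀
    · have h1 : M a₀ b ∈ I := Ideal.subset_span ⟨b, hb, rfl⟩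
      rw [hg] at h1
      obtain ⟨w, hw⟩ := Submodule.mem_span_singleton.1 h1
      exact ⟨w, by rw [← hw, smul_eq_mul, mul_comm]⟩
    · exact ⟨0, by rw [hM a₀ b hb, mul_zero]⟩
  choose v hv using hdvd
  have hg0 : g ≠ 0 := by
    rintro rfl
    exact hM0 (by rw [hv b₀, zero_mul])
  obtain ⟨w, hw⟩ : ∃ w : B → Polynomial 𝕜, ∑ b ∈ B₀, w b * v b = 1 := by
    rw [hI, Ideal.span, Submodule.mem_span_image_finset_iff_exists_fun] at hgI
    obtain ⟨w, hw⟩ := hgI
    refine ⟨fun b => if hb : b ∈ B₀ then w ⟨b, hb⟩ else 0, mul_left_cancel₀ hg0 ?_⟩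
    rw [mul_one]
    refine Eq.trans ?_ hw
    rw [mul_sum, ← Finset.sum_coe_sort B₀]
    refine sum_congr rfl fun b _ => ?_
    beta_reduce
    rw [smul_eq_mul, dif_pos b.2, hv b]
    ring
  have hid : ∀ a b b', M a b * v b' = M a b' * v b := by
    intro a b b'
    refine mul_left_cancel₀ hg0 ?_
    have h1 : g * (M a b * v b') = M a b * M a₀ b' := by rw [hv b']; ring
    have h2 : g * (M a b' * v b) = M a b' * M a₀ b := by rw [hv b]; ring
    rw [h1, h2]
    refine Polynomial.funext fun t => ?_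
    obtain ⟨x, y, _, _, h3⟩ := h t
    rw [Polynomial.eval_mul, Polynomial.eval_mul, h3, h3, h3, h3]
    ring
  refine ⟨v, fun t x y ⟨a, ha⟩ ⟨b₁, hb₁⟩ h3 => ?_⟩
  have h4 : ∀ b b', y b * (v b').eval t = y b' * (v b).eval t := by
    intro b b'
    have h5 := congrArg (Polynomial.eval t) (hid a b b')
    rw [Polynomial.eval_mul, Polynomial.eval_mul, h3, h3, mul_assoc, mul_assoc] at h5
    exact mul_left_cancel₀ ha h5
  have h6 : ∀ b, (v b).eval t = (v b₁).eval t / y b₁ * y b := by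
    intro b
    have h7 := h4 b₁ b
    field_simp
    rw [mul_comm, h7]
    ring
  refine ⟨(v b₁).eval t / y b₁, fun h7 => ?_, h6⟩
  have h8 : ∀ b, (v b).eval t = 0 := by
    intro b
    rw [h6, h7, zero_mul]
  have h9 := congrArg (Polynomial.eval t) hw
  rw [Polynomial.eval_finsetSum, Polynomial.eval_one] at h9
  rw [sum_eq_zero fun b _ => by rw [Polynomial.eval_mul, h8, mul_zero]] at h9
  exact zero_ne_one h9

end rank

section bh

variable {𝕜 : Type*} [Field 𝕜] {K K₁ : ℕ} {N : Fin K → ℕ} (s : Fin K₁ ↪ Fin K)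

/-- the substitution -/
noncomputable def bh : MvPolynomial (∀ k, Fin (N k)) 𝕜 →ₐ[𝕜]
    MvPolynomial (∀ i, Fin (N (s i))) (MvPolynomial (Σ k, Fin (N k)) 𝕜) :=
  aeval fun l => C (∏ k ∈ (univ.map s)ᶜ, X ⟨k, l k⟩) * X fun i => l (s i)

/-- the part of the factors outside of the image -/
noncomputable def lam (v : ∀ k, Fin (N k) → 𝕜) : MvPolynomial (Σ k, Fin (N k)) 𝕜 :=
  ∏ k ∈ (univ.map s)ᶜ, ∑ i, C (v k i) * X ⟨k, i⟩

lemma lam_ne_zero {v : ∀ k, Fin (N k) → 𝕜} (hv : ∀ k, v k ≠ 0) : lam s v ≠ 0 := by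
  classical
  rw [lam, prod_ne_zero_iff]
  intro k _ h
  refine hv k (funext fun i => ?_)
  have h1 := congrArg (eval (fun x : Σ k, Fin (N k) => if x = ⟨k, i⟩ then (1 : 𝕜) else 0)) h
  rw [map_sum, map_zero, sum_eq_single i] at h1
  · rw [map_mul, eval_C, eval_X, if_pos rfl, mul_one] at h1
    exact h1
  · intro j _ hj
    rw [map_mul, eval_C, eval_X, if_neg, mul_zero]
    intro h2
    exact hj (by simpa using h2)
  · intro h2
    exact absurd (mem_univ _) h2

lemma bh_segre (v : ∀ k, Fin (N k) → 𝕜) :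
    bh s (segre v) = C (lam s v) * MvPolynomial.map C (segre fun i => v (s i)) := by
  classical
  set g : ∀ k, Fin (N k) → MvPolynomial (Σ k, Fin (N k)) 𝕜 := fun k x =>
    if k ∈ univ.map s then C (v k x) else C (v k x) * X ⟨k, x⟩ with hg
  have h1 : bh s (segre v) = ∑ l : ∀ k, Fin (N k), C (∏ k, g k (l k)) * X fun i => l (s i) := by
    rw [segre, map_sum]
    refine sum_congr rfl fun l _ => ?_
    rw [map_mul, algHom_C, bh, aeval_X, ← mul_assoc]
    congr 1
    rw [MvPolynomial.algebraMap_apply, algebraMap_eq, ← C_mul]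
    congr 1
    rw [← prod_mul_prod_compl (univ.map s) fun k => g k (l k),
      ← prod_mul_prod_compl (univ.map s) fun k => v k (l k), C_mul, mul_assoc, map_prod, map_prod,
      ← prod_mul_distrib]
    congr 1
    · refine prod_congr rfl fun k hk => ?_
      rw [hg]
      simp only [if_pos hk]
    · refine prod_congr rfl fun k hk => ?_
      rw [hg]
      simp only [if_neg (mem_compl.1 hk)]
  have h2 : MvPolynomial.map (C : 𝕜 →+* MvPolynomial (Σ k, Fin (N k)) 𝕜) (segre fun i => v (s i)) = ∑ l' : ∀ i, Fin (N (s i)),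
      C (C (∏ i, v (s i) (l' i))) * X l' := by
    rw [segre, map_sum]
    refine sum_congr rfl fun l' _ => ?_
    rw [map_mul, map_C, map_X]
  rw [h1, h2, ← sum_fiberwise univ fun (l : ∀ k, Fin (N k)) (i : Fin K₁) => l (s i), mul_sum]
  refine sum_congr rfl fun l' _ => ?_
  set t : ∀ k, Finset (Fin (N k)) := fun k => univ.filter fun x =>
    ∀ i, s i = k → x.1 = (l' i).1 with ht
  have h3 : (univ.filter fun l : ∀ k, Fin (N k) => (fun i => l (s i)) = l') =
      Fintype.piFinset t := by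
    ext l
    rw [mem_filter, Fintype.mem_piFinset]
    constructor
    · rintro ⟨_, h⟩ k
      rw [ht, mem_filter]
      refine ⟨mem_univ _, ?_⟩
      rintro i rfl
      rw [← h]
    · intro h
      refine ⟨mem_univ _, funext fun i => ?_⟩
      have h4 := h (s i)
      rw [ht, mem_filter] at h4
      exact Fin.ext (h4.2 i rfl)
  have h4 : ∑ l : ∀ k, Fin (N k) with (fun i => l (s i)) = l',
      C (∏ k, g k (l k)) * X (fun i => l (s i)) =
      (C (∑ l ∈ Fintype.piFinset t, ∏ k, g k (l k)) * X l' :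
        MvPolynomial (∀ i, Fin (N (s i))) (MvPolynomial (Σ k, Fin (N k)) 𝕜)) := by
    rw [← h3, map_sum, sum_mul]
    refine sum_congr rfl fun l hl => ?_
    rw [(mem_filter.1 hl).2]
  rw [h4, ← prod_univ_sum, ← mul_assoc, ← C_mul]
  congr 2
  rw [← prod_mul_prod_compl (univ.map s), mul_comm, prod_map, lam, map_prod]
  congr 1
  · refine prod_congr rfl fun k hk => ?_
    have hk' := mem_compl.1 hk
    have h5 : t k = univ := by
      rw [ht]
      refine filter_true_of_mem fun x _ i hi => absurd ?_ hk'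
      rw [mem_map]
      exact ⟨i, mem_univ _, hi⟩
    rw [h5]
    refine sum_congr rfl fun x _ => ?_
    rw [hg]
    simp only [if_neg hk']
  · refine prod_congr rfl fun i _ => ?_
    have h5 : t (s i) = {l' i} := by
      ext x
      rw [ht, mem_filter, mem_singleton]
      constructor
      · rintro ⟨_, h⟩
        exact Fin.ext (h i rfl)
      · rintro rfl
        refine ⟨mem_univ _, fun j hj => ?_⟩
        have := s.injective hj
        subst this
        rfl
    have h6 : s i ∈ univ.map s := mem_map_of_mem s (mem_univ i)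
    rw [h5, sum_singleton, hg]
    simp only [if_pos h6]

end bh

section fam

variable {𝕜 : Type*} [Field 𝕜] [CharZero 𝕜] {K K₁ : ℕ} {N : Fin K → ℕ} (s : Fin K₁ ↪ Fin K)

/-- a coefficient of the substituted form -/
noncomputable def cf (a : (Σ k, Fin (N k)) →₀ ℕ) (b : (∀ i, Fin (N (s i))) →₀ ℕ) :
    MvPolynomial (∀ k, Fin (N k)) 𝕜 →ₗ[𝕜] 𝕜 where
  toFun p := coeff a (coeff b (bh s p))
  map_add' p q := by rw [map_add, coeff_add, coeff_add]
  map_smul' c p := by
    rw [map_smul, coeff_smul, coeff_smul]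
    rfl

lemma cf_mul_C (a : (Σ k, Fin (N k)) →₀ ℕ) (b : (∀ i, Fin (N (s i))) →₀ ℕ)
    (p : MvPolynomial (∀ k, Fin (N k)) 𝕜) (c : 𝕜) : cf s a b (p * C c) = cf s a b p * c := by
  rw [mul_comm, ← smul_eq_C_mul, map_smul, smul_eq_mul, mul_comm]

lemma cf_form (a : (Σ k, Fin (N k)) →₀ ℕ) (b : (∀ i, Fin (N (s i))) →₀ ℕ) (c : 𝕜) {d : ℕ}
    (v : Fin d → ∀ k, Fin (N k) → 𝕜) : cf s a b (C c * ∏ j, segre (v j)) =
      coeff a (C c * ∏ j, lam s (v j)) * coeff b (∏ j, segre fun i => v j (s i)) := by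
  change coeff a (coeff b (bh s (C c * ∏ j, segre (v j)))) = _
  have h1 : bh s (C c * ∏ j, segre (v j)) = C (C c * ∏ j, lam s (v j)) *
      MvPolynomial.map C (∏ j, segre fun i => v j (s i)) := by
    rw [map_mul, algHom_C, MvPolynomial.algebraMap_apply, algebraMap_eq, map_prod, map_prod]
    simp only [bh_segre]
    rw [prod_mul_distrib, C_mul, mul_assoc, map_prod]
  rw [h1, coeff_C_mul, coeff_map, mul_comm, coeff_C_mul, mul_comm]

/-- the family of coefficients -/
noncomputable def MM (P : Polynomial (MvPolynomial (∀ k, Fin (N k)) 𝕜))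
    (a : (Σ k, Fin (N k)) →₀ ℕ) (b : (∀ i, Fin (N (s i))) →₀ ℕ) : Polynomial 𝕜 :=
  ∑ n ∈ P.support, Polynomial.C (cf s a b (P.coeff n)) * Polynomial.X ^ n

lemma eval_MM (P : Polynomial (MvPolynomial (∀ k, Fin (N k)) 𝕜)) (a : (Σ k, Fin (N k)) →₀ ℕ)
    (b : (∀ i, Fin (N (s i))) →₀ ℕ) (t : 𝕜) :
    (MM s P a b).eval t = cf s a b (P.eval (C t)) := by
  rw [MM, Polynomial.eval_finsetSum, Polynomial.eval_eq_sum, Polynomial.sum, map_sum]
  refine sum_congr rfl fun n _ => ?_
  rw [← C_pow, cf_mul_C]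
  simp

open Classical in
/-- the possible exponents -/
noncomputable def BS (P : Polynomial (MvPolynomial (∀ k, Fin (N k)) 𝕜)) :
    Finset ((∀ i, Fin (N (s i))) →₀ ℕ) :=
  P.support.biUnion fun n => (bh s (P.coeff n)).support

lemma MM_zero (P : Polynomial (MvPolynomial (∀ k, Fin (N k)) 𝕜)) (a : (Σ k, Fin (N k)) →₀ ℕ)
    (b : (∀ i, Fin (N (s i))) →₀ ℕ) (hb : b ∉ BS s P) : MM s P a b = 0 := by
  classical
  refine sum_eq_zero fun n hn => ?_
  have h1 : coeff b (bh s (P.coeff n)) = 0 := by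
    by_contra h
    exact hb (mem_biUnion.2 ⟨n, hn, mem_support_iff.2 h⟩)
  have h2 : cf s a b (P.coeff n) = 0 := by
    change coeff a (coeff b (bh s (P.coeff n))) = 0
    rw [h1, coeff_zero]
  rw [h2, map_zero, zero_mul]

lemma exists_coeff_ne {R σ : Type*} [CommSemiring R] {p : MvPolynomial σ R} (hp : p ≠ 0) :
    ∃ a, coeff a p ≠ 0 := by
  by_contra h
  push Not at h
  exact hp (MvPolynomial.ext _ _ fun a => by rw [h a, coeff_zero])

lemma segre_ne_zero {K : ℕ} {N : Fin K → ℕ} {v : ∀ k, Fin (N k) → 𝕜} (hv : ∀ k, v k ≠ 0) :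
    segre v ≠ 0 := by
  classical
  have h1 : ∀ k, ∃ i, v k i ≠ 0 := by
    intro k
    by_contra h
    push Not at h
    exact hv k (funext h)
  choose l hl using h1
  intro h
  have h2 := congrArg (eval fun x => if x = l then (1 : 𝕜) else 0) h
  rw [segre, map_sum, map_zero, sum_eq_single l] at h2
  · rw [map_mul, eval_C, eval_X, if_pos rfl, mul_one] at h2
    exact prod_ne_zero_iff.2 (fun k _ => hl k) h2
  · intro j _ hj
    rw [map_mul, eval_C, eval_X, if_neg hj, mul_zero]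
  · intro h3
    exact absurd (mem_univ _) h3

variable {m : ℕ}

theorem joined_map {d : ℕ} {p q : Fin d → Pts 𝕜 N m} (h : Joined p q) :
    Joined (N := fun i => N (s i)) (fun j i => p j (s i)) (fun j i => q j (s i)) := by
  classical
  obtain ⟨P, h1, h2, h3⟩ := h
  have hform : ∀ (t : 𝕜) (w : Fin d → Pts 𝕜 N m), IsChowForm w (P.eval (C t)) →
      ∃ (x : ((Σ k, Fin (N k)) →₀ ℕ) → 𝕜), (∃ a, x a ≠ 0) ∧
      (∃ b, coeff b (∏ j, segre fun i => (w j (s i)).1.rep) ≠ 0) ∧
      ∀ a b, (MM s P a b).eval t = x a * coeff b (∏ j, segre fun i => (w j (s i)).1.rep) := by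
    rintro t w ⟨c, hc, hw⟩
    refine ⟨fun a => coeff a (C c * ∏ j, lam s fun k => (w j k).1.rep), exists_coeff_ne ?_,
      exists_coeff_ne ?_, ?_⟩
    · refine mul_ne_zero ?_ (prod_ne_zero_iff.2 fun j _ => lam_ne_zero s fun k => (w j k).1.rep_nonzero)
      rw [Ne, C_eq_zero]
      exact hc
    · exact prod_ne_zero_iff.2 fun j _ => segre_ne_zero fun i => (w j (s i)).1.rep_nonzero
    · intro a b
      rw [eval_MM, hw]
      exact cf_form s a b c fun j k => (w j k).1.rep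
  obtain ⟨v, hv⟩ := rank_one (BS s P) (MM s P) (fun a b hb => MM_zero s P a b hb) (by
    intro t
    obtain ⟨w, hw⟩ := h1 t
    obtain ⟨x, h4, h5, h6⟩ := hform t w hw
    exact ⟨x, _, h4, h5, h6⟩)
  set Q : Polynomial (MvPolynomial (∀ i, Fin (N (s i))) 𝕜) :=
    ∑ b ∈ BS s P, (v b).map C * Polynomial.C (monomial b 1) with hQ
  have hQe : ∀ t : 𝕜, Q.eval (C t) = ∑ b ∈ BS s P, C ((v b).eval t) * monomial b 1 := by
    intro t
    rw [hQ, Polynomial.eval_finsetSum]
    refine sum_congr rfl fun b _ => ?_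
    rw [Polynomial.eval_mul, Polynomial.eval_C, Polynomial.eval_map, ← Polynomial.eval₂_at_apply]
  have key : ∀ (t : 𝕜) (w : Fin d → Pts 𝕜 N m), IsChowForm w (P.eval (C t)) →
      IsChowForm (N := fun i => N (s i)) (fun j i => w j (s i)) (Q.eval (C t)) := by
    intro t w hw
    obtain ⟨x, h4, h5, h6⟩ := hform t w hw
    obtain ⟨c, hc, h7⟩ := hv t x _ h4 h5 h6
    refine ⟨c, hc, ?_⟩
    rw [hQe]
    simp only [h7]
    refine MvPolynomial.ext _ _ fun b => ?_
    rw [coeff_C_mul, coeff_sum]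
    have h8 : ∀ b', coeff b (C (c * coeff b' (∏ j, segre fun i => (w j (s i)).1.rep)) *
        monomial b' (1 : 𝕜)) = if b' = b then
          c * coeff b (∏ j, segre fun i => (w j (s i)).1.rep) else 0 := by
      intro b'
      rw [coeff_C_mul, coeff_monomial]
      by_cases hb : b' = b
      · rw [if_pos hb, if_pos hb, hb, mul_one]
      · rw [if_neg hb, if_neg hb, mul_zero]
    simp only [h8]
    rw [sum_ite_eq' (BS s P) b]
    by_cases hb : b ∈ BS s P
    · rw [if_pos hb]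
    · rw [if_neg hb]
      obtain ⟨a, ha⟩ := h4
      have h9 := h6 a b
      rw [MM_zero s P a b hb, Polynomial.eval_zero] at h9
      rw [(mul_eq_zero.1 h9.symm).resolve_left ha, mul_zero]
  refine ⟨Q, fun t => ?_, key 0 p h2, key 1 q h3⟩
  obtain ⟨w, hw⟩ := h1 t
  exact ⟨_, key t w hw⟩

theorem ratEquiv_map {z : Pts 𝕜 N m →₀ ℤ} (hz : z ∈ T2H37.PR.RatEquivZero 𝕜 N m) :
    z.mapDomain (fun x i => x (s i)) ∈ T2H37.PR.RatEquivZero 𝕜 (fun i => N (s i)) m := by
  have h1 : T2H37.PR.RatEquivZero 𝕜 N m ≤ (T2H37.PR.RatEquivZero 𝕜 (fun i => N (s i)) m).comap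
      (Finsupp.mapDomain.addMonoidHom fun (x : Pts 𝕜 N m) i => x (s i)) := by
    rw [T2H37.PR.RatEquivZero, AddSubgroup.closure_le]
    rintro _ ⟨d, p, q, hpq, rfl⟩
    refine AddSubgroup.subset_closure ⟨d, _, _, joined_map s hpq, ?_⟩
    rw [map_sub, map_sum, map_sum]
    congr 1
    · exact sum_congr rfl fun j _ => Finsupp.mapDomain_single
    · exact sum_congr rfl fun j _ => Finsupp.mapDomain_single
  exact h1 hz

end fam

end Pool.Agent.U901.BB
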