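import Pool.Agent.U901.BBDefs2
import Pool.Agent.U901.BB4

/-!
# Zero-cycles on products of Fermat hypersurfaces: the Bloch-Beilinson filtration
-/

set_option autoImplicit false
set_option linter.unusedSectionVars false
set_option linter.unusedSimpArgs false

namespace Pool.Agent.U901.BB

open MvPolynomial Finset Pool.Agent.T2H37.FK Pool.Agent.T2H37.PR

section tors

variable {𝕜 : Type*} [Field 𝕜] {K m : ℕ} {N : Fin K → ℕ}

lemma Tors.zero : Tors (0 : Pts 𝕜 N m →₀ ℤ) := ⟨1, one_pos, by rw [smul_zero]; exact zero_mem _⟩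

lemma Tors.add {z w : Pts 𝕜 N m →₀ ℤ} (hz : Tors z) (hw : Tors w) : Tors (z + w) := by
  obtain ⟨j, hj, h1⟩ := hz
  obtain ⟨l, hl, h2⟩ := hw
  refine ⟨j * l, Nat.mul_pos hj hl, ?_⟩
  rw [smul_add, mul_smul, mul_smul, smul_comm j l z]
  exact add_mem (AddSubgroup.nsmul_mem _ h1 l) (AddSubgroup.nsmul_mem _ h2 j)

lemma Tors.neg {z : Pts 𝕜 N m →₀ ℤ} (hz : Tors z) : Tors (-z) := by
  obtain ⟨j, hj, h1⟩ := hz
  exact ⟨j, hj, by rw [smul_neg]; exact neg_mem h1⟩

lemma Tors.of_smul {z : Pts 𝕜 N m →₀ ℤ} {j : ℕ} (hj : 0 < j) (hz : Tors (j • z)) : Tors z := by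
  obtain ⟨l, hl, h1⟩ := hz
  exact ⟨l * j, Nat.mul_pos hl hj, by rw [mul_smul]; exact h1⟩

/-- the step of the filtration as a subgroup -/
noncomputable def FilG (𝕜 : Type*) [Field 𝕜] (m K : ℕ) (N : Fin K → ℕ) (ν : ℕ) :
    AddSubgroup (Pts 𝕜 N m →₀ ℤ) where
  carrier := Fil 𝕜 N m ν
  add_mem' {z w} hz hw S hS := by
    rw [Finsupp.mapDomain_add]
    exact (hz S hS).add (hw S hS)
  zero_mem' S hS := by
    rw [Finsupp.mapDomain_zero]
    exact Tors.zero
  neg_mem' {z} hz S hS := by
    have h1 : (-z).mapDomain (pr S) = - z.mapDomain (pr S) :=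
      map_neg (Finsupp.mapDomain.addMonoidHom (pr S)) z
    rw [h1]
    exact (hz S hS).neg

lemma mem_FilG {ν : ℕ} {z : Pts 𝕜 N m →₀ ℤ} : z ∈ FilG 𝕜 m K N ν ↔ z ∈ Fil 𝕜 N m ν := Iff.rfl

/-- the degree -/
noncomputable def deg : (Pts 𝕜 N m →₀ ℤ) →+ ℤ := Finsupp.liftAddHom fun _ => AddMonoidHom.id ℤ

lemma deg_apply (z : Pts 𝕜 N m →₀ ℤ) : deg z = z.sum fun _ c => c := rfl

lemma deg_rat {z : Pts 𝕜 N m →₀ ℤ} (hz : z ∈ T2H37.PR.RatEquivZero 𝕜 N m) : deg z = 0 := by
  have h1 : T2H37.PR.RatEquivZero 𝕜 N m ≤ (deg : (Pts 𝕜 N m →₀ ℤ) →+ ℤ).ker := by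
    rw [T2H37.PR.RatEquivZero, AddSubgroup.closure_le]
    rintro _ ⟨d, p, q, hpq, rfl⟩
    change deg _ = 0
    rw [map_sub, map_sum, map_sum]
    simp [deg]
  exact h1 hz

lemma deg_tors {z : Pts 𝕜 N m →₀ ℤ} (hz : Tors z) : deg z = 0 := by
  obtain ⟨j, hj, h1⟩ := hz
  have h2 := deg_rat h1
  rw [map_nsmul, nsmul_eq_mul] at h2
  exact (mul_eq_zero.1 h2).resolve_left (by exact_mod_cast hj.ne')

lemma deg_map {K₁ : ℕ} {N₁ : Fin K₁ → ℕ} (p : Pts 𝕜 N m → Pts 𝕜 N₁ m) (z : Pts 𝕜 N m →₀ ℤ) :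
    deg (z.mapDomain p) = deg z := by
  have h1 : (deg : (Pts 𝕜 N₁ m →₀ ℤ) →+ ℤ).comp (Finsupp.mapDomain.addMonoidHom p) = deg := by
    refine Finsupp.addHom_ext fun x c => ?_
    change deg (Finsupp.mapDomain p (Finsupp.single x c)) = _
    rw [Finsupp.mapDomain_single]
    simp [deg]
  exact DFunLike.congr_fun h1 z

end tors

section alt

/-- alternating sums over the subsets -/
lemma alt_sum {A ι : Type*} [AddCommGroup A] [DecidableEq ι] {S : Finset ι} {k : ι} (hk : k ∈ S)
    (f : Finset ι → A) (hf : ∀ S', k ∉ S' → f (insert k S') = f S') :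
    ∑ S' ∈ S.powerset, ((-1 : ℤ) ^ (S \ S').card) • f S' = 0 := by
  have h1 : k ∉ S.erase k := notMem_erase k S
  have h2 : S.powerset = (insert k (S.erase k)).powerset := by rw [insert_erase hk]
  rw [h2, sum_powerset_insert h1, ← sum_add_distrib]
  refine sum_eq_zero fun S' hS' => ?_
  have h3 : k ∉ S' := fun h => h1 (mem_powerset.1 hS' h)
  have h4 : S \ S' = insert k (S \ insert k S') := by
    ext x
    simp only [mem_sdiff, mem_insert]
    constructor
    · rintro ⟨h5, h6⟩
      by_cases hx : x = k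
      · exact Or.inl hx
      · exact Or.inr ⟨h5, fun h => h.elim hx h6⟩
    · rintro (rfl | ⟨h5, h6⟩)
      · exact ⟨hk, h3⟩
      · exact ⟨h5, fun h => h6 (Or.inr h)⟩
  have h5 : (S \ S').card = (S \ insert k S').card + 1 := by
    rw [h4, card_insert_of_notMem]
    intro h
    exact (mem_sdiff.1 h).2 (mem_insert_self k S')
  rw [hf S' h3, h5, pow_succ]
  simp

end alt

section push

variable {𝕜 : Type*} [Field 𝕜] {K K' m : ℕ} {N : Fin K → ℕ} {N' : Fin K' → ℕ}

/-- the action of the correspondences as a homomorphism in the correspondence -/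
noncomputable def pushHom (z : Pts 𝕜 N m →₀ ℤ) : (Mor 𝕜 N N' m →₀ ℤ) →+ (Pts 𝕜 N' m →₀ ℤ) :=
  Finsupp.liftAddHom fun g => (zmultiplesHom _) (z.mapDomain g.act)

lemma pushHom_apply (z : Pts 𝕜 N m →₀ ℤ) (a : Mor 𝕜 N N' m →₀ ℤ) : pushHom z a = push a z := rfl

lemma push_single (g : Mor 𝕜 N N' m) (c : ℤ) (z : Pts 𝕜 N m →₀ ℤ) :
    push (Finsupp.single g c) z = c • z.mapDomain g.act := by
  rw [push, Finsupp.sum_single_index (by simp)]

lemma act_lin (x : Pts 𝕜 N m) (g : Mor 𝕜 N N' m) (k : Fin K') (j : Fin K) (h : N' k = N j)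
    (hg : g k = .lin j h 1) (y : Fermat 𝕜 (N' k) m)
    (hy : y.1.rep = fun i => (x j).1.rep (Fin.cast h i)) : g.act x k = y := by
  apply Subtype.ext
  change Projectivization.mk 𝕜 ((g k).vec fun j => (x j).1.rep) _ = y.1
  have h1 : (g k).vec (fun j => (x j).1.rep) = y.1.rep := by
    rw [hg, hy]
    change (1 : Matrix (Fin (N' k)) (Fin (N' k)) 𝕜).mulVec _ = _
    rw [Matrix.one_mulVec]
  conv_rhs => rw [← y.1.mk_rep]
  congr 1

lemma act_const (x : Pts 𝕜 N m) (g : Mor 𝕜 N N' m) (k : Fin K') (o : Fermat 𝕜 (N' k) m)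
    (i : Fin (N' k)) (h : o.1.rep i = 0) (hg : g k = .const o i h) : g.act x k = o := by
  apply Subtype.ext
  change Projectivization.mk 𝕜 ((g k).vec fun j => (x j).1.rep) _ = o.1
  have h1 : (g k).vec (fun j => (x j).1.rep) = o.1.rep := by
    rw [hg]
    rfl
  conv_rhs => rw [← o.1.mk_rep]
  congr 1

end push

section idm

variable {𝕜 : Type*} [Field 𝕜] {K m : ℕ} {N : Fin K → ℕ} (o : ∀ k, Fermat 𝕜 (N k) m)
  (i : ∀ k, Fin (N k)) (h : ∀ k, (o k).1.rep (i k) = 0)

open Classical in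
/-- the morphism which keeps the factors in `S` and is constant in the other factors -/
noncomputable def kp (S : Finset (Fin K)) : Mor 𝕜 N N m := fun k =>
  if k ∈ S then .lin k rfl 1 else .const (o k) (i k) (h k)

lemma kp_act (S : Finset (Fin K)) : (kp o i h S).act = FX.keep (o : Pts 𝕜 N m) S := by
  classical
  funext x k
  rw [FX.keep]
  by_cases hk : k ∈ S
  · rw [if_pos hk]
    exact act_lin x _ k k rfl (if_pos hk) (x k) rfl
  · rw [if_neg hk]
    exact act_const x _ k (o k) (i k) (h k) (if_neg hk)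

lemma keep_keep (S S' : Finset (Fin K)) :
    FX.keep (o : Pts 𝕜 N m) S ∘ FX.keep (o : Pts 𝕜 N m) S' = FX.keep (o : Pts 𝕜 N m) (S ∩ S') := by
  classical
  funext x k
  rw [Function.comp_apply, FX.keep, FX.keep, FX.keep]
  by_cases hk : k ∈ S
  · by_cases hk' : k ∈ S'
    · rw [if_pos hk, if_pos hk', if_pos (mem_inter.2 ⟨hk, hk'⟩)]
    · rw [if_pos hk, if_neg hk', if_neg fun h => hk' (mem_inter.1 h).2]
  · rw [if_neg hk, if_neg fun h => hk (mem_inter.1 h).1]

lemma keep_univ (z : Pts 𝕜 N m →₀ ℤ) : z.mapDomain (FX.keep (o : Pts 𝕜 N m) univ) = z := by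
  classical
  have h1 : FX.keep (o : Pts 𝕜 N m) univ = id := by
    funext x k
    rw [FX.keep, if_pos (mem_univ k)]
    rfl
  rw [h1, Finsupp.mapDomain_id]

/-- the idempotent -/
noncomputable def pS (S : Finset (Fin K)) : Mor 𝕜 N N m →₀ ℤ :=
  ∑ S' ∈ S.powerset, Finsupp.single (kp o i h S') ((-1) ^ (S \ S').card)

lemma push_pS (S : Finset (Fin K)) (z : Pts 𝕜 N m →₀ ℤ) : push (pS o i h S) z =
    ∑ S' ∈ S.powerset, ((-1 : ℤ) ^ (S \ S').card) • z.mapDomain (FX.keep (o : Pts 𝕜 N m) S') := by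
  rw [← pushHom_apply, pS, map_sum]
  refine sum_congr rfl fun S' _ => ?_
  rw [pushHom_apply, push_single, kp_act]

lemma keep_pS (S S₁ : Finset (Fin K)) (z : Pts 𝕜 N m →₀ ℤ) :
    (push (pS o i h S) z).mapDomain (FX.keep (o : Pts 𝕜 N m) S₁) = ∑ S' ∈ S.powerset,
      ((-1 : ℤ) ^ (S \ S').card) • z.mapDomain (FX.keep (o : Pts 𝕜 N m) (S₁ ∩ S')) := by
  rw [push_pS, Finsupp.mapDomain_finsetSum]
  refine sum_congr rfl fun S' _ => ?_
  rw [Finsupp.mapDomain_smul, ← Finsupp.mapDomain_comp, keep_keep]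

lemma pS_idem (S : Finset (Fin K)) (z : Pts 𝕜 N m →₀ ℤ) :
    push (pS o i h S) (push (pS o i h S) z) = push (pS o i h S) z := by
  classical
  rw [push_pS o i h S (push (pS o i h S) z), sum_eq_single S]
  · rw [show (S \ S).card = 0 by simp, pow_zero, one_smul, keep_pS, push_pS]
    refine sum_congr rfl fun S' hS' => ?_
    rw [inter_eq_right.2 (mem_powerset.1 hS')]
  · intro S₁ hS₁ hne
    obtain ⟨k, hk, hk'⟩ : ∃ k ∈ S, k ∉ S₁ := by
      by_contra hcon
      push Not at hcon
      exact hne (subset_antisymm (mem_powerset.1 hS₁) hcon)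
    rw [keep_pS, alt_sum hk (fun S' => z.mapDomain (FX.keep (o : Pts 𝕜 N m) (S₁ ∩ S'))), smul_zero]
    intro S' _
    rw [inter_insert_of_notMem hk']
  · intro h1
    exact absurd (mem_powerset.2 (Subset.refl S)) h1

lemma killsComp_pS {S T S'' : Finset (Fin K)} {k : Fin K} (hk : k ∈ S) (hkT : k ∉ T) :
    KillsComp (pS o i h S) T S'' := by
  classical
  intro r d P hP v
  set φ : (Mor 𝕜 N N m →₀ ℤ) →+ 𝕜 := Finsupp.liftAddHom fun g =>
    (AddMonoidHom.mulRight (g.minor r * ∏ k ∈ T, eval ((g k).vec v) (P k))).comp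
      (Int.castAddHom 𝕜) with hφ
  change φ (pS o i h S) = 0
  rw [pS, map_sum]
  have h1 : ∀ S', φ (Finsupp.single (kp o i h S') ((-1) ^ (S \ S').card)) =
      ((-1 : ℤ) ^ (S \ S').card) • ((kp o i h S').minor r *
        ∏ k ∈ T, eval ((kp o i h S' k).vec v) (P k)) := by
    intro S'
    rw [hφ, Finsupp.liftAddHom_apply_single, zsmul_eq_mul]
    rfl
  simp only [h1]
  refine alt_sum hk _ fun S' hS' => ?_
  have h2 : ∀ l, l ∈ T → kp o i h (insert k S') l = kp o i h S' l := by
    intro l hl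
    have hlk : l ≠ k := by
      rintro rfl
      exact hkT hl
    rw [kp, kp]
    by_cases hl' : l ∈ S'
    · rw [if_pos hl', if_pos (mem_insert_of_mem hl')]
    · rw [if_neg hl', if_neg]
      intro h3
      exact (mem_insert.1 h3).elim hlk hl'
  congr 1
  · rw [Mor.minor, Mor.minor]
    congr 1
    ext x y
    rw [Matrix.of_apply, Matrix.of_apply, h2 _ x.2]
  · refine prod_congr rfl fun l hl => ?_
    rw [h2 l hl]

lemma killsForms_pS {S : Finset (Fin K)} {ν : ℕ} (hν : ν < dimOf N S) :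
    KillsForms (pS o i h S) ν := by
  intro T S'' hT
  obtain ⟨k, hk, hk'⟩ : ∃ k ∈ S, k ∉ T := by
    by_contra hcon
    push Not at hcon
    have := dimOf_mono (N := N) (T := S) (T' := T) hcon
    omega
  exact killsComp_pS o i h hk hk'

end idm

section main

variable {𝕜 : Type*} [Field 𝕜] [IsAlgClosed 𝕜] [CharZero 𝕜] {m : ℕ}

lemma Adm.le {K : ℕ} {N : Fin K → ℕ} (h : Adm N m) (hm : 3 ≤ m) (k : Fin K) : m + 3 ≤ 2 * N k := by
  have := h k
  omega

lemma exists_const {n : ℕ} (hn : 3 ≤ n) (hm : 0 < m) :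
    ∃ (o : Fermat 𝕜 n m) (i : Fin n), o.1.rep i = 0 := by
  have : NeZero m := ⟨hm.ne'⟩
  obtain ⟨v, i, hv, hi⟩ := exists_o (𝕜 := 𝕜) (m := m) hn
  refine ⟨mkX v hv, i, ?_⟩
  obtain ⟨a, ha⟩ := Projectivization.exists_smul_eq_mk_rep 𝕜 v hv.1
  change (Projectivization.mk 𝕜 v hv.1).rep i = 0
  rw [← ha]
  change (a : 𝕜) * v i = 0
  rw [hi, mul_zero]

/-- existence -/
theorem isBB (hm : 3 ≤ m) : IsBB 𝕜 m fun K N ν => FilG 𝕜 m K N ν where
  rat K N hN ν z hz S hS := ⟨1, one_pos, by
    rw [one_smul]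
    exact ratEquiv_map (S.orderEmbOfFin rfl).toEmbedding hz⟩
  sat K N hN ν z j hj hz S hS := by
    have h1 := hz S hS
    have h2 : (j • z).mapDomain (pr S) = j • z.mapDomain (pr S) :=
      map_nsmul (Finsupp.mapDomain.addMonoidHom (pr S)) j z
    rw [h2] at h1
    exact h1.of_smul hj
  anti K N hN ν z hz S hS := hz S (by omega)
  zero K N hN := by
    rw [eq_top_iff]
    intro z _ S hS
    exact absurd hS (Nat.not_lt_zero _)
  one K N hN z := by
    constructor
    · intro hz
      have h1 := deg_tors (hz ∅ (by simp [dimOf]))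
      rw [deg_map] at h1
      exact h1
    · intro hz S hS
      have h1 : S = ∅ := by
        by_contra hne
        obtain ⟨k, hk⟩ := nonempty_iff_ne_empty.2 hne
        have h2 : N k - 2 ≤ dimOf N S := single_le_sum (f := fun k => N k - 2)
          (fun _ _ => Nat.zero_le _) hk
        have h3 := hN.le hm k
        omega
      subst h1
      have h2 : ∀ w : Pts 𝕜 (fun i : Fin (∅ : Finset (Fin K)).card =>
          N ((∅ : Finset (Fin K)).orderEmbOfFin rfl i)) m →₀ ℤ, deg w = 0 → w = 0 := by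
        intro w hw
        have hu : ∀ x y : Pts 𝕜 (fun i : Fin (∅ : Finset (Fin K)).card =>
            N ((∅ : Finset (Fin K)).orderEmbOfFin rfl i)) m, x = y :=
          fun x y => funext fun i => absurd i.2 (by simp)
        ext x
        rw [deg_apply, Finsupp.sum, sum_subset (s₂ := {x}) (fun y _ => by
          rw [mem_singleton]; exact hu y x) (fun y _ hy => Finsupp.notMem_support_iff.1 hy), sum_singleton] at hw
        exact hw
      rw [h2 (z.mapDomain (pr ∅)) (by rw [deg_map]; exact hz)]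
      exact Tors.zero
  fin K N hN z hz := by
    have h1 := push_tors hm (hN.le hm) (hN.le hm)
      (Finsupp.single (fun k => .lin k rfl 1 : Mor 𝕜 N N m) 1) z fun T S =>
        Or.inr (hz S (Nat.lt_succ_of_le (dimOf_mono (subset_univ S))))
    rw [push_single, one_smul] at h1
    have h2 : Mor.act (fun k => .lin k rfl 1 : Mor 𝕜 N N m) = id := by
      funext x k
      exact act_lin x _ k k rfl rfl (x k) rfl
    rwa [h2, Finsupp.mapDomain_id] at h1
  map K K' N N' hN hN' a ν z hz := push_fil_self hm (hN.le hm) (hN'.le hm) a hz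
  gr K K' N N' hN hN' a ν ha z hz := push_fil_succ hm (hN.le hm) (hN'.le hm) a ha hz

/-- uniqueness -/
theorem isBB_unique (hm : 3 ≤ m) {F : ∀ (K : ℕ) (N : Fin K → ℕ), ℕ → AddSubgroup (Pts 𝕜 N m →₀ ℤ)}
    (hF : IsBB 𝕜 m F) {K : ℕ} {N : Fin K → ℕ} (hN : Adm N m) (ν : ℕ) (z : Pts 𝕜 N m →₀ ℤ) :
    z ∈ F K N ν ↔ z ∈ Fil 𝕜 N m ν := by
  classical
  have htors : ∀ {K : ℕ} {N : Fin K → ℕ}, Adm N m → ∀ (ν : ℕ) (w : Pts 𝕜 N m →₀ ℤ), Tors w →
      w ∈ F K N ν := by
    rintro K N hN ν w ⟨j, hj, hw⟩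
    exact hF.sat K N hN ν w j hj (hF.rat K N hN ν hw)
  have hanti : ∀ {K : ℕ} {N : Fin K → ℕ}, Adm N m → ∀ {ν μ : ℕ}, ν ≤ μ → F K N μ ≤ F K N ν := by
    intro K N hN ν μ h
    exact antitone_nat_of_succ_le (f := fun ν => F K N ν) (hF.anti K N hN) h
  constructor
  · intro hz S hS
    set N₁ : Fin S.card → ℕ := fun i => N (S.orderEmbOfFin rfl i) with hN₁
    have hN₁' : Adm N₁ m := fun i => hN _
    have h1 := hF.map K S.card N N₁ hN hN₁' (Finsupp.single
      (fun i => .lin (S.orderEmbOfFin rfl i) rfl 1 : Mor 𝕜 N N₁ m) 1) ν z hz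
    rw [push_single, one_smul] at h1
    have h2 : Mor.act (fun i => .lin (S.orderEmbOfFin rfl i) rfl 1 : Mor 𝕜 N N₁ m) = pr S := by
      funext x k
      exact act_lin x _ k (S.orderEmbOfFin rfl k) rfl rfl _ rfl
    rw [h2] at h1
    have h3 : dimOf N₁ univ = dimOf N S := by
      rw [dimOf, dimOf]
      have h4 : S = univ.map (S.orderEmbOfFin rfl).toEmbedding := by
        ext k
        rw [mem_map]
        constructor
        · intro hk
          have h5 : k ∈ Set.range (S.orderEmbOfFin rfl) := by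
            rw [Finset.range_orderEmbOfFin]
            exact hk
          obtain ⟨i, hi⟩ := h5
          exact ⟨i, mem_univ _, hi⟩
        · rintro ⟨i, _, rfl⟩
          exact S.orderEmbOfFin_mem rfl i
      conv_rhs => rw [h4]
      rw [sum_map]
      rfl
    refine hF.fin _ _ hN₁' _ (hanti hN₁' (show dimOf N₁ univ + 1 ≤ ν by omega) h1)
  · intro hz
    have hc : ∀ k, ∃ (o : Fermat 𝕜 (N k) m) (i : Fin (N k)), o.1.rep i = 0 := fun k =>
      exists_const (by have := hN.le hm k; omega) (by omega)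
    choose o i h using hc
    -- the idempotents move the cycles to the step given by the dimension
    have hp : ∀ (S : Finset (Fin K)) (n : ℕ), n ≤ dimOf N S → push (pS o i h S) z ∈ F K N n := by
      intro S n
      induction n with
      | zero =>
        intro _
        rw [hF.zero K N hN]
        exact AddSubgroup.mem_top _
      | succ n ih =>
        intro hn
        have h1 := hF.gr K K N N hN hN (pS o i h S) n (killsForms_pS o i h (by omega)) _
          (ih (by omega))
        rwa [pS_idem] at h1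
    -- induction on the sets
    have hk : ∀ (n : ℕ) (S : Finset (Fin K)), S.card = n →
        z.mapDomain (FX.keep (o : Pts 𝕜 N m) S) ∈ F K N ν := by
      intro n
      induction n using Nat.strong_induction_on with
      | _ n ih =>
        intro S hSn
        by_cases hS : dimOf N S < ν
        · -- the push-forward to the product of the factors is torsion
          have h1 := htors (N := fun i : Fin S.card => N (S.orderEmbOfFin rfl i)) (fun i => hN _) ν _
            (hz S hS)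
          set iso := S.orderIsoOfFin rfl with hiso
          have hd : ∀ k (hk : k ∈ S), N k = N (S.orderEmbOfFin rfl (iso.symm ⟨k, hk⟩)) := by
            intro k hk
            change N k = N (iso (iso.symm ⟨k, hk⟩)).1
            rw [OrderIso.apply_symm_apply]
          have h2 := hF.map S.card K (fun i : Fin S.card => N (S.orderEmbOfFin rfl i)) N
            (fun i => hN _) hN (Finsupp.single (fun k => if hk : k ∈ S then
              .lin (iso.symm ⟨k, hk⟩) (hd k hk) 1 else .const (o k) (i k) (h k) :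
              Mor 𝕜 (fun i : Fin S.card => N (S.orderEmbOfFin rfl i)) N m) 1) ν _ h1
          rw [push_single, one_smul, ← Finsupp.mapDomain_comp] at h2
          convert h2 using 2
          funext x k
          rw [FX.keep, Function.comp_apply]
          by_cases hk : k ∈ S
          · rw [if_pos hk]
            symm
            refine act_lin (pr S x) _ k (iso.symm ⟨k, hk⟩) (hd k hk) (dif_pos hk) (x k) ?_
            funext l
            refine cast_eq' (D := N) (a := k) (b := S.orderEmbOfFin rfl (iso.symm ⟨k, hk⟩)) ?_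
              (fun j => (x j).1.rep) l _ rfl
            change k = (iso (iso.symm ⟨k, hk⟩)).1
            rw [OrderIso.apply_symm_apply]
          · rw [if_neg hk]
            symm
            exact act_const (pr S x) _ k (o k) (i k) (h k) (dif_neg hk)
        · -- the idempotent
          have h1 := hanti hN (not_lt.1 hS) (hp S (dimOf N S) le_rfl)
          rw [push_pS, ← insert_erase (mem_powerset_self S), sum_insert (notMem_erase _ _),
            show (S \ S).card = 0 by simp, pow_zero, one_smul] at h1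
          refine (AddSubgroup.add_mem_cancel_right _ ?_).1 h1
          refine AddSubgroup.sum_mem _ fun S' hS' => AddSubgroup.zsmul_mem _ ?_ _
          obtain ⟨h2, h3⟩ := mem_erase.1 hS'
          have h4 : S' ⊂ S := (mem_powerset.1 h3).ssubset_of_ne h2
          exact ih S'.card (by rw [← hSn]; exact card_lt_card h4) S' rfl
    have h1 := hk _ univ rfl
    rwa [keep_univ] at h1

end main

end Pool.Agent.U901.BB
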