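import Pool.Agent.T2H37.PR.Defs

/-!
# Morphisms between products of Fermat hypersurfaces, and a filtration on zero-cycles
-/

set_option autoImplicit false

namespace Pool.Agent.U901.BB

open MvPolynomial Pool.Agent.T2H37.FK Pool.Agent.T2H37.PR

/-- The component of a morphism from the product `X` of the Fermat hypersurfaces `X j` (of dimension
`N j - 2`) to a Fermat hypersurface of dimension `n - 2`: either constant, with a value one of whose
homogeneous coordinates vanishes, or the projection to a factor `X j` with `N j = n`, followed by a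
linear automorphism. -/
inductive Comp (𝕜 : Type*) [Field 𝕜] {K : ℕ} (N : Fin K → ℕ) (n m : ℕ)
  | const (o : Fermat 𝕜 n m) (i : Fin n) (h : o.1.rep i = 0) : Comp 𝕜 N n m
  | lin (j : Fin K) (h : n = N j) (A : FermatGroup 𝕜 n m) : Comp 𝕜 N n m

/-- The morphisms from the product `X` of the Fermat hypersurfaces given by `N` to the product `Y` of
those given by `N'`, all of degree `m`: each component is as in `Comp`. For instance the projections
to the product of some of the factors, diagonal morphisms, permutations of the factors, linear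
automorphisms of the factors, and inclusions with constant components are of this kind. -/
def Mor (𝕜 : Type*) [Field 𝕜] {K K' : ℕ} (N : Fin K → ℕ) (N' : Fin K' → ℕ) (m : ℕ) : Type _ :=
  ∀ k : Fin K', Comp 𝕜 N (N' k) m

variable {𝕜 : Type*} [Field 𝕜] {K K' : ℕ} {N : Fin K → ℕ} {N' : Fin K' → ℕ} {n m : ℕ}

/-- The homogeneous coordinates of the image. -/
noncomputable def Comp.vec : Comp 𝕜 N n m → (∀ j, Fin (N j) → 𝕜) → Fin n → 𝕜
  | .const o _ _, _ => o.1.rep
  | .lin j h A, v => A.1.1.mulVec fun i => v j (Fin.cast h i)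

/-- The linear part: zero for the constant components. -/
noncomputable def Comp.dvec : Comp 𝕜 N n m → (∀ j, Fin (N j) → 𝕜) → Fin n → 𝕜
  | .const _ _ _, _ => 0
  | .lin j h A, v => A.1.1.mulVec fun i => v j (Fin.cast h i)

lemma Comp.vec_ne_zero (c : Comp 𝕜 N n m) {v : ∀ j, Fin (N j) → 𝕜} (hv : ∀ j, v j ≠ 0) :
    c.vec v ≠ 0 := by
  cases c with
  | const o i h => exact o.1.rep_nonzero
  | lin j h A =>
    refine mulVec_ne_zero A.1 fun h0 => hv j ?_
    funext i
    have h1 := congrFun h0 (Fin.cast h.symm i)
    exact h1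

lemma sum_cast' {a b : ℕ} (h : a = b) (f : Fin b → 𝕜) : ∑ i : Fin a, f (Fin.cast h i) = ∑ i, f i := by
  subst h
  rfl

lemma Comp.vec_sum (c : Comp 𝕜 N n m) {v : ∀ j, Fin (N j) → 𝕜} (hv : ∀ j, ∑ i, v j i ^ m = 0) :
    ∑ i, c.vec v i ^ m = 0 := by
  cases c with
  | const o i h => exact o.2
  | lin j h A =>
    have h1 := A.2 fun i => v j (Fin.cast h i)
    have h2 : ∑ i : Fin n, v j (Fin.cast h i) ^ m = ∑ i, v j i ^ m := sum_cast' h fun i => v j i ^ m
    rw [Comp.vec, h1, h2, hv j]

/-- The action of a morphism on the points. -/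
noncomputable def Mor.act (g : Mor 𝕜 N N' m) (x : Pts 𝕜 N m) : Pts 𝕜 N' m := fun k =>
  ⟨Projectivization.mk 𝕜 ((g k).vec fun j => (x j).1.rep)
    ((g k).vec_ne_zero fun j => (x j).1.rep_nonzero), by
    rw [rep_mk]
    exact (g k).vec_sum fun j => (x j).2⟩

/-- For sets `S` of factors of `Y` and `S'` of factors of `X`, the determinant of the linear map from
the sum of the vector spaces of the factors in `S'` to the sum of the vector spaces of the factors in
`S` given by the linear parts of the components of the morphism, after identification of the two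
sets of coordinates by a bijection `r`. -/
noncomputable def Mor.minor (g : Mor 𝕜 N N' m) {S : Finset (Fin K')} {S' : Finset (Fin K)}
    (r : {x : Σ k, Fin (N' k) // x.1 ∈ S} ≃ {x : Σ j, Fin (N j) // x.1 ∈ S'}) : 𝕜 :=
  (Matrix.of fun x y : {x : Σ k, Fin (N' k) // x.1 ∈ S} =>
    (g x.1.1).dvec (Pi.single (r y).1.1 (Pi.single (r y).1.2 1)) x.1.2).det

/-- The holomorphic forms of type `S` on a product are the sums of the exterior products of forms of
top degree on the factors in `S`; by the Künneth formula the holomorphic forms are the direct sum of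
the forms of type `S` for all sets `S` of factors. `KillsComp a S S'`: the component of type `S'` of
the pullback `∑ g, a g • g^* ω` is zero for all forms `ω` of type `S` on `Y`. The forms of top degree
on the `k`-th factor are the residues of `P k * Ω k / F k` for the forms `P k` of degree `m - N' k`,
where `F k = ∑ i, x i ^ m` and `Ω k` comes from the volume form; the volume forms are compared by
the determinant `minor` (another bijection `r` changes at most the sign of all terms). -/
def KillsComp (a : Mor 𝕜 N N' m →₀ ℤ) (S : Finset (Fin K')) (S' : Finset (Fin K)) : Prop :=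
  ∀ (r : {x : Σ k, Fin (N' k) // x.1 ∈ S} ≃ {x : Σ j, Fin (N j) // x.1 ∈ S'})
    (d : Fin K' → ℕ) (P : ∀ k, MvPolynomial (Fin (N' k)) 𝕜),
    (∀ k ∈ S, d k + N' k = m ∧ (P k).IsHomogeneous (d k)) → ∀ v : ∀ j, Fin (N j) → 𝕜,
      (a.sum fun g c => (c : 𝕜) * (g.minor r * ∏ k ∈ S, eval ((g k).vec v) (P k))) = 0

/-- The action of an integral combination of morphisms from `X` to `Y` on zero-cycles. -/
noncomputable def push (a : Mor 𝕜 N N' m →₀ ℤ) (z : Pts 𝕜 N m →₀ ℤ) : Pts 𝕜 N' m →₀ ℤ :=
  a.sum fun g c => c • z.mapDomain g.act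

/-- The projection from `X` to the product `X S` of the factors in `S`. -/
def pr (S : Finset (Fin K)) (x : Pts 𝕜 N m) : Pts 𝕜 (fun i : Fin S.card => N (S.orderEmbOfFin rfl i)) m :=
  fun i => x (S.orderEmbOfFin rfl i)

/-- The zero-cycle `z` is torsion modulo rational equivalence. -/
def Tors (z : Pts 𝕜 N m →₀ ℤ) : Prop :=
  ∃ j : ℕ, 0 < j ∧ j • z ∈ Pool.Agent.T2H37.PR.RatEquivZero 𝕜 N m

/-- The dimension of the product of the factors in `S`. -/
def dimOf (N : Fin K → ℕ) (S : Finset (Fin K)) : ℕ := ∑ k ∈ S, (N k - 2)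

/-- The step `ν` of the filtration: the zero-cycles on `X` whose push-forwards to the products `X S` of
dimension less than `ν` of some of the factors are torsion modulo rational equivalence. -/
def Fil (𝕜 : Type*) [Field 𝕜] {K : ℕ} (N : Fin K → ℕ) (m ν : ℕ) : Set (Pts 𝕜 N m →₀ ℤ) :=
  {z | ∀ S : Finset (Fin K), dimOf N S < ν → Tors (z.mapDomain (pr S))}

end Pool.Agent.U901.BB
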