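import Pool.Agent.U901.BBDefs

/-!
# Bloch-Beilinson filtrations on the zero-cycles of products of Fermat hypersurfaces
-/

set_option autoImplicit false

namespace Pool.Agent.U901.BB

open MvPolynomial Pool.Agent.T2H37.FK Pool.Agent.T2H37.PR

/-- The degree of the hypersurfaces is at most twice the dimension plus one, for all factors. -/
def Adm {K : ℕ} (N : Fin K → ℕ) (m : ℕ) : Prop := ∀ k, m ≤ 2 * (N k - 2) + 1

/-- The pullback `∑ g, a g • g^*` from the holomorphic `ν`-forms on `Y` to the holomorphic `ν`-forms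
on `X` is zero: by the Künneth formula the holomorphic `ν`-forms are the direct sum of the forms of
type `S` for the sets `S` of factors with the sum of the dimensions equal to `ν`. -/
def KillsForms {𝕜 : Type*} [Field 𝕜] {K K' : ℕ} {N : Fin K → ℕ} {N' : Fin K' → ℕ} {m : ℕ}
    (a : Mor 𝕜 N N' m →₀ ℤ) (ν : ℕ) : Prop :=
  ∀ (T : Finset (Fin K')) (S : Finset (Fin K)), dimOf N' T = ν → KillsComp a T S

/-- The subgroups `F K N ν` of the groups of zero-cycles of all products `X` of finitely many Fermat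
hypersurfaces of degree `m`, whose dimensions `N k - 2` satisfy `m ≤ 2 * (N k - 2) + 1`, are a
Bloch-Beilinson filtration on zero-cycles modulo rational equivalence with rational coefficients, for
the correspondences which are integral combinations of morphisms as in `Mor`. -/
structure IsBB (𝕜 : Type*) [Field 𝕜] (m : ℕ)
    (F : ∀ (K : ℕ) (N : Fin K → ℕ), ℕ → AddSubgroup (Pts 𝕜 N m →₀ ℤ)) : Prop where
  /-- the subgroups contain the cycles rationally equivalent to zero -/
  rat : ∀ (K : ℕ) (N : Fin K → ℕ), Adm N m → ∀ ν, RatEquivZero 𝕜 N m ≤ F K N ν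
  /-- they come from rational subspaces of the group of zero-cycles modulo rational equivalence with
  rational coefficients -/
  sat : ∀ (K : ℕ) (N : Fin K → ℕ), Adm N m → ∀ (ν : ℕ) (z : Pts 𝕜 N m →₀ ℤ) (j : ℕ), 0 < j →
    j • z ∈ F K N ν → z ∈ F K N ν
  /-- the filtration is decreasing -/
  anti : ∀ (K : ℕ) (N : Fin K → ℕ), Adm N m → ∀ ν, F K N (ν + 1) ≤ F K N ν
  /-- it begins with all zero-cycles -/
  zero : ∀ (K : ℕ) (N : Fin K → ℕ), Adm N m → F K N 0 = ⊤
  /-- then the zero-cycles of degree zero -/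
  one : ∀ (K : ℕ) (N : Fin K → ℕ), Adm N m → ∀ z : Pts 𝕜 N m →₀ ℤ,
    z ∈ F K N 1 ↔ (z.sum fun _ c => c) = 0
  /-- it ends after the step given by the dimension of `X` -/
  fin : ∀ (K : ℕ) (N : Fin K → ℕ), Adm N m → ∀ z ∈ F K N (dimOf N Finset.univ + 1), Tors z
  /-- it is respected by correspondences -/
  map : ∀ (K K' : ℕ) (N : Fin K → ℕ) (N' : Fin K' → ℕ), Adm N m → Adm N' m →
    ∀ (a : Mor 𝕜 N N' m →₀ ℤ) (ν : ℕ), ∀ z ∈ F K N ν, push a z ∈ F K' N' ν
  /-- the action of a correspondence on the graded piece `ν` is zero when its action on the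
  holomorphic `ν`-forms is zero -/
  gr : ∀ (K K' : ℕ) (N : Fin K → ℕ) (N' : Fin K' → ℕ), Adm N m → Adm N' m →
    ∀ (a : Mor 𝕜 N N' m →₀ ℤ) (ν : ℕ), KillsForms a ν → ∀ z ∈ F K N ν, push a z ∈ F K' N' (ν + 1)

end Pool.Agent.U901.BB
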