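import Pool.Agent.U901.FX

/-!
# Alternating sums of exterior products of zero-cycles on quotients of Fermat hypersurfaces
-/

set_option autoImplicit false
set_option linter.unusedSectionVars false
set_option linter.unusedSimpArgs false

namespace Pool.Agent.U901.FV

open MvPolynomial Finset Pool.Agent.T2H37.FK Pool.Agent.T2H37.PR Pool.Agent.U901.FX

section group

variable {𝕜 : Type*} [Field 𝕜] {N m : ℕ}

lemma act_mul (g h : FermatGroup 𝕜 N m) (x : Fermat 𝕜 N m) :
    Pool.Agent.T2H37.FK.act g (Pool.Agent.T2H37.FK.act h x) = Pool.Agent.T2H37.FK.act (g * h) x := by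
  apply Subtype.ext
  obtain ⟨a, ha⟩ := Projectivization.exists_smul_eq_mk_rep 𝕜 (h.1.1.mulVec x.1.rep)
    (mulVec_ne_zero h.1 x.1.rep_nonzero)
  refine (Projectivization.mk_eq_mk_iff' 𝕜 _ _ _ _).2 ⟨a, ?_⟩
  change (a : 𝕜) • ((g * h).1.1.mulVec x.1.rep) = g.1.1.mulVec
    (Projectivization.mk 𝕜 (h.1.1.mulVec x.1.rep) _).rep
  rw [← ha]
  change _ = g.1.1.mulVec ((a : 𝕜) • (h.1.1.mulVec x.1.rep))
  rw [Matrix.mulVec_smul, Matrix.mulVec_mulVec]
  rfl

lemma act_one (x : Fermat 𝕜 N m) : Pool.Agent.T2H37.FK.act (1 : FermatGroup 𝕜 N m) x = x := by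
  apply Subtype.ext
  change Projectivization.mk 𝕜 ((1 : Matrix (Fin N) (Fin N) 𝕜).mulVec x.1.rep) _ = x.1
  have h1 : (1 : Matrix (Fin N) (Fin N) 𝕜).mulVec x.1.rep = x.1.rep := Matrix.one_mulVec _
  conv_rhs => rw [← x.1.mk_rep]
  exact (Projectivization.mk_eq_mk_iff' 𝕜 _ _ _ _).2 ⟨1, by rw [one_smul, h1]⟩

lemma act_inv_act (g : FermatGroup 𝕜 N m) (x : Fermat 𝕜 N m) : Pool.Agent.T2H37.FK.act g⁻¹ (Pool.Agent.T2H37.FK.act g x) = x := by
  rw [act_mul, inv_mul_cancel, act_one]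

lemma act_act_inv (g : FermatGroup 𝕜 N m) (x : Fermat 𝕜 N m) : Pool.Agent.T2H37.FK.act g (Pool.Agent.T2H37.FK.act g⁻¹ x) = x := by
  rw [act_mul, mul_inv_cancel, act_one]

end group

section finite

variable {𝕜 : Type*} [Field 𝕜] [IsAlgClosed 𝕜] [CharZero 𝕜] {N m : ℕ}

/-- the group of linear automorphisms is finite -/
lemma finite_group (hm : 3 ≤ m) : Finite (FermatGroup 𝕜 N m) := by
  classical
  have : NeZero m := ⟨by omega⟩
  choose k σ h using fun g : FermatGroup 𝕜 N m => monomial_form hm g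
  refine Finite.of_injective (fun g => (k g, σ g)) fun g g' hgg => ?_
  apply Subtype.ext
  apply Units.ext
  ext l j
  rw [h g l j, h g' l j]
  have h1 : k g = k g' := congrArg Prod.fst hgg
  have h2 : σ g = σ g' := congrArg Prod.snd hgg
  rw [h1, h2]

end finite

section ext

variable {𝕜 : Type*} [Field 𝕜] {N m r : ℕ}

/-- the automorphism of `X ^ r` given by a permutation and automorphisms of `X` -/
noncomputable def au (σ : Equiv.Perm (Fin r)) (h : Fin r → FermatGroup 𝕜 N m) :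
    PAut 𝕜 (fun _ : Fin r => N) m where
  perm := σ
  dim := fun _ => rfl
  mat := h

lemma au_vec (σ : Equiv.Perm (Fin r)) (h : Fin r → FermatGroup 𝕜 N m) (v : Fin r → Fin N → 𝕜)
    (k : Fin r) : (au σ h).vec v k = (h k).1.1.mulVec (v (σ k)) := rfl

lemma au_act (σ : Equiv.Perm (Fin r)) (h : Fin r → FermatGroup 𝕜 N m)
    (x : Pts 𝕜 (fun _ : Fin r => N) m) (k : Fin r) : (au σ h).act x k = Pool.Agent.T2H37.FK.act (h k) (x (σ k)) := rfl

lemma extProd_apply {K : ℕ} {N : Fin K → ℕ} (z : ∀ k, Fermat 𝕜 (N k) m →₀ ℤ) (y : Pts 𝕜 N m) :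
    extProd z y = ∏ k, z k (y k) := by
  classical
  rw [extProd, Finsupp.finsetSum_apply]
  by_cases hy : y ∈ prodSupp z
  · rw [sum_eq_single y]
    · rw [Finsupp.single_eq_same]
    · intro x _ hx
      rw [Finsupp.single_eq_of_ne (Ne.symm hx)]
    · intro h
      exact absurd hy h
  · rw [sum_eq_zero]
    · symm
      have h1 : ¬ ∀ k, y k ∈ (z k).support := fun h => hy (Fintype.mem_piFinset.2 h)
      push Not at h1
      obtain ⟨k, hk⟩ := h1
      exact prod_eq_zero (mem_univ k) (Finsupp.notMem_support_iff.1 hk)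
    · intro x hx
      rw [Finsupp.single_eq_of_ne]
      rintro rfl
      exact hy hx

lemma mapDomain_au (σ : Equiv.Perm (Fin r)) (h : Fin r → FermatGroup 𝕜 N m)
    (z : Fin r → (Fermat 𝕜 N m →₀ ℤ)) (hinv : ∀ (i k : Fin r) (x : Fermat 𝕜 N m), z i (Pool.Agent.T2H37.FK.act (h k) x) = z i x) :
    (extProd z).mapDomain (au σ h).act = extProd fun k => z (σ k) := by
  have hinj : Function.Injective (au σ h).act := by
    intro x y hxy
    funext k
    obtain ⟨k, rfl⟩ := σ.surjective k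
    have h1 : Pool.Agent.T2H37.FK.act (h k) (x (σ k)) = Pool.Agent.T2H37.FK.act (h k) (y (σ k)) := by
      rw [← au_act σ h, ← au_act σ h, hxy]
    rw [← act_inv_act (h k) (x (σ k)), h1, act_inv_act]
  ext y
  obtain ⟨x, rfl⟩ : ∃ x, (au σ h).act x = y := by
    refine ⟨fun l => Pool.Agent.T2H37.FK.act (h (σ.symm l))⁻¹ (y (σ.symm l)), ?_⟩
    funext k
    have key : ∀ l, l = k → Pool.Agent.T2H37.FK.act (h k)
        (Pool.Agent.T2H37.FK.act (h l)⁻¹ (y l)) = y k := by
      rintro l rfl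
      exact act_act_inv (h l) (y l)
    exact key _ (σ.symm_apply_apply k)
  rw [Finsupp.mapDomain_apply hinj, extProd_apply, extProd_apply]
  rw [← Equiv.prod_comp σ fun k => z k (x k)]
  refine prod_congr rfl fun k _ => ?_
  rw [au_act, hinv]

/-- the minors of the automorphisms of `X ^ r` -/
lemma minor_au (r' : {x : Σ _ : Fin r, Fin N // x.1 ∈ (univ : Finset (Fin r))} ≃
    {x : Σ _ : Fin r, Fin N // x.1 ∈ (univ : Finset (Fin r))}) :
    ∃ c : 𝕜, ∀ (σ : Equiv.Perm (Fin r)) (h : Fin r → FermatGroup 𝕜 N m),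
      (au σ h).minor r' = c * ((Equiv.Perm.sign σ : ℤ) : 𝕜) ^ N * ∏ k, (h k).1.1.det := by
  classical
  refine ⟨((Equiv.Perm.sign r' : ℤ) : 𝕜), fun σ h => ?_⟩
  let ι := {x : Σ _ : Fin r, Fin N // x.1 ∈ (univ : Finset (Fin r))}
  let A : Matrix ι ι 𝕜 := Matrix.of fun x w =>
    if w.1.1 = σ x.1.1 then (h x.1.1).1.1 x.1.2 w.1.2 else 0
  have h1 : (au σ h).minor r' = (A.submatrix id r').det := by
    rw [PAut.minor]
    congr 1
    ext x y
    rw [Matrix.of_apply, Matrix.submatrix_apply, au_vec]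
    change Matrix.mulVec _ _ _ = if (r' y).1.1 = σ x.1.1 then (h x.1.1).1.1 x.1.2 (r' y).1.2 else 0
    split_ifs with hc
    · have h2 : (Pi.single (r' y).1.1 (Pi.single (r' y).1.2 1) : Fin r → Fin N → 𝕜) (σ x.1.1) =
          Pi.single (r' y).1.2 1 := by
        rw [← hc, Pi.single_eq_same]
      rw [h2, Matrix.mulVec_single_one]
      rfl
    · rw [Pi.single_eq_of_ne (Ne.symm hc), Matrix.mulVec_zero]
      rfl
  rw [h1, Matrix.det_permute', mul_assoc]
  congr 1
  let e : Fin N × Fin r ≃ ι :=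
    { toFun := fun p => ⟨⟨p.2, p.1⟩, mem_univ _⟩
      invFun := fun x => (x.1.2, x.1.1)
      left_inv := fun _ => rfl
      right_inv := fun _ => rfl }
  have h2 : A.det = (A.submatrix e e).det := (Matrix.det_submatrix_equiv_self e A).symm
  let π : Equiv.Perm (Fin N × Fin r) := Equiv.prodCongrRight fun _ => σ
  have h3 : ((A.submatrix e e).submatrix id π) = Matrix.blockDiagonal fun k => (h k).1.1 := by
    ext ⟨i, k⟩ ⟨j, l⟩
    rw [Matrix.submatrix_apply, Matrix.submatrix_apply, Matrix.blockDiagonal_apply]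
    change (if σ l = σ k then (h k).1.1 i j else 0) = _
    by_cases hkl : k = l
    · subst hkl
      simp
    · rw [if_neg fun h => hkl (σ.injective h).symm, if_neg hkl]
  have h4 := congrArg Matrix.det h3
  rw [Matrix.det_permute', Matrix.det_blockDiagonal] at h4
  have h5 : (Equiv.Perm.sign π) = (Equiv.Perm.sign σ) ^ N := by
    rw [Equiv.Perm.sign_prodCongrRight]
    simp
  rw [h5] at h4
  rw [h2, ← h4]
  have h6 : ((((Equiv.Perm.sign σ) ^ N : ℤˣ) : ℤ) : 𝕜) = ((Equiv.Perm.sign σ : ℤ) : 𝕜) ^ N := by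
    push_cast
    rfl
  rw [h6, ← mul_assoc, ← mul_pow]
  rcases Int.units_eq_one_or (Equiv.Perm.sign σ) with h7 | h7 <;> rw [h7] <;> simp

end ext

section kills

variable {𝕜 : Type*} [Field 𝕜] [IsAlgClosed 𝕜] [CharZero 𝕜] {N m r : ℕ} (G : Subgroup (FermatGroup 𝕜 N m)) [Fintype G]

/-- the average of a form -/
noncomputable def avg (P : MvPolynomial (Fin N) 𝕜) : MvPolynomial (Fin N) 𝕜 :=
  ∑ h : G, C (h.1.1.1.det) * aeval (fun l => lin (h.1.1.1 l)) P

lemma eval_avg (P : MvPolynomial (Fin N) 𝕜) (v : Fin N → 𝕜) :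
    eval v (avg G P) = ∑ h : G, h.1.1.1.det * eval (h.1.1.1.mulVec v) P := by
  rw [avg, map_sum]
  refine sum_congr rfl fun h _ => ?_
  rw [map_mul, eval_C]
  congr 1
  have h1 : (eval v).comp (aeval (fun l => lin (h.1.1.1 l)) :
      MvPolynomial (Fin N) 𝕜 →ₐ[𝕜] MvPolynomial (Fin N) 𝕜).toRingHom =
      eval (h.1.1.1.mulVec v) := by
    refine MvPolynomial.ringHom_ext (fun c => ?_) fun l => ?_
    · change eval v (aeval (fun l => lin (h.1.1.1 l)) (C c)) = _
      rw [algHom_C, algebraMap_eq, eval_C, eval_C]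
    · change eval v (aeval (fun l => lin (h.1.1.1 l)) (X l)) = _
      rw [aeval_X, eval_X, lin_row]
  exact RingHom.congr_fun h1 P

lemma avg_homogeneous {P : MvPolynomial (Fin N) 𝕜} {d : ℕ} (hP : P.IsHomogeneous d) :
    (avg G P).IsHomogeneous d := by
  refine IsHomogeneous.sum _ _ _ fun h _ => ?_
  have h1 := hP.aeval (S := 𝕜) (fun l => lin (h.1.1.1 l)) fun l => lin_homogeneous (h.1.1.1 l)
  have h2 := (isHomogeneous_C (Fin N) (h.1.1.1.det)).mul h1
  rwa [zero_add, one_mul] at h2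

lemma avg_inv (P : MvPolynomial (Fin N) 𝕜) (g : FermatGroup 𝕜 N m) (hg : g ∈ G) (v : Fin N → 𝕜) :
    g.1.1.det * eval (g.1.1.mulVec v) (avg G P) = eval v (avg G P) := by
  rw [eval_avg, eval_avg, mul_sum]
  refine Fintype.sum_equiv (Equiv.mulRight ⟨g, hg⟩) _ _ fun h => ?_
  have h1 : ((Equiv.mulRight (⟨g, hg⟩ : G)) h).1.1.1 = h.1.1.1 * g.1.1 := rfl
  rw [h1, Matrix.det_mul, ← Matrix.mulVec_mulVec]
  ring

lemma invForm_avg {P : MvPolynomial (Fin N) 𝕜} {d : ℕ} (hd : d + N = m) (hP : P.IsHomogeneous d) :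
    InvForm G (avg G P) :=
  ⟨⟨d, hd, avg_homogeneous G hP⟩, fun g hg v => avg_inv G P g hg v⟩

/-- the alternating sum over the permutations and the group -/
noncomputable def altG : PAut 𝕜 (fun _ : Fin r => N) m →₀ ℤ :=
  ∑ σ : Equiv.Perm (Fin r), ∑ h : Fin r → G,
    Finsupp.single (au σ fun k => (h k).1) ((Equiv.Perm.sign σ : ℤ) ^ (N + 1))

lemma altG_sum {M : Type*} [AddCommMonoid M] (F : PAut 𝕜 (fun _ : Fin r => N) m → ℤ → M)
    (h0 : ∀ g, F g 0 = 0) (ha : ∀ g b c, F g (b + c) = F g b + F g c) :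
    (altG (r := r) G).sum F = ∑ σ : Equiv.Perm (Fin r), ∑ h : Fin r → G,
      F (au σ fun k => (h k).1) ((Equiv.Perm.sign σ : ℤ) ^ (N + 1)) := by
  classical
  rw [altG, ← Finsupp.sum_finsetSum_index h0 ha]
  refine sum_congr rfl fun σ _ => ?_
  rw [← Finsupp.sum_finsetSum_index h0 ha]
  refine sum_congr rfl fun h _ => ?_
  rw [Finsupp.sum_single_index (h0 _)]

lemma altG_kills [NeZero N]
    (hG : ∀ P : Fin r → MvPolynomial (Fin N) 𝕜, (∀ i, InvForm G (P i)) → ¬ LinearIndependent 𝕜 P) :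
    KillsType (altG (r := r) G) univ := by
  classical
  intro S' r' d P hP v
  rw [altG_sum G _ (by intro g; simp) (by intro g b c; push_cast; ring)]
  by_cases hS : S' = univ
  · subst hS
    obtain ⟨c, hc⟩ := minor_au (𝕜 := 𝕜) (m := m) r'
    have h1 : ∀ σ : Equiv.Perm (Fin r), ∑ h : Fin r → G,
        ((((Equiv.Perm.sign σ : ℤ) ^ (N + 1) : ℤ)) : 𝕜) * ((au σ fun k => (h k).1).minor r' *
          ∏ k ∈ univ, eval ((au σ fun k => (h k).1).vec v k) (P k)) =
        c * (((Equiv.Perm.sign σ : ℤ) : 𝕜) * ∏ k, eval (v (σ k)) (avg G (P k))) := by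
      intro σ
      have h2 : ∏ k, eval (v (σ k)) (avg G (P k)) = ∑ h : Fin r → G,
          ∏ k, ((h k).1.1.1.det * eval ((h k).1.1.1.mulVec (v (σ k))) (P k)) := by
        simp only [eval_avg]
        rw [Fintype.prod_sum]
      rw [h2, mul_sum, mul_sum]
      refine sum_congr rfl fun h _ => ?_
      rw [hc, prod_mul_distrib]
      simp only [au_vec]
      have h3 : ((((Equiv.Perm.sign σ : ℤ) ^ (N + 1) : ℤ)) : 𝕜) * ((Equiv.Perm.sign σ : ℤ) : 𝕜) ^ N =
          ((Equiv.Perm.sign σ : ℤ) : 𝕜) := by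
        rcases Int.units_eq_one_or (Equiv.Perm.sign σ) with h7 | h7 <;> rw [h7]
        · simp
        · push_cast
          rw [← pow_add]
          exact Odd.neg_one_pow ⟨N, by ring⟩
      linear_combination (c * (∏ k, (h k).1.1.1.det) *
        ∏ k, eval ((h k).1.1.1.mulVec (v (σ k))) (P k)) * h3
    rw [sum_congr rfl fun σ _ => h1 σ, ← mul_sum]
    have h4 := hG (fun k => avg G (P k)) fun k => invForm_avg G (hP k (mem_univ k)).1
      (hP k (mem_univ k)).2
    rw [Fintype.not_linearIndependent_iff] at h4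
    obtain ⟨w, hw, k₀, hk₀⟩ := h4
    have h5 : (Matrix.of fun l k : Fin r => eval (v l) (avg G (P k))).det = 0 := by
      refine Matrix.exists_mulVec_eq_zero_iff.1 ⟨w, fun h => hk₀ (congrFun h k₀), ?_⟩
      funext l
      rw [Matrix.mulVec, dotProduct]
      have h6 := congrArg (eval (v l)) hw
      rw [map_sum, map_zero] at h6
      rw [Pi.zero_apply, ← h6]
      refine sum_congr rfl fun k _ => ?_
      rw [Matrix.of_apply, smul_eval]
      ring
    rw [Matrix.det_apply] at h5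
    have h7 : ∑ σ : Equiv.Perm (Fin r), (((Equiv.Perm.sign σ : ℤ) : 𝕜) *
        ∏ k, eval (v (σ k)) (avg G (P k))) = 0 := by
      rw [← h5]
      refine sum_congr rfl fun σ _ => ?_
      simp only [Matrix.of_apply]
      rw [Units.smul_def, zsmul_eq_mul]
    rw [h7, mul_zero]
  · refine sum_eq_zero fun σ _ => sum_eq_zero fun h _ => ?_
    have : ∀ k : Fin r, NeZero ((fun _ : Fin r => N) k) := fun k => inferInstance
    rw [minor_zero (N := fun _ : Fin r => N) _ r', zero_mul, mul_zero]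
    intro h1
    apply hS
    rw [← h1]
    simp

end kills

section voisin

variable {𝕜 : Type*} [Field 𝕜] [IsAlgClosed 𝕜] [CharZero 𝕜] {N m r : ℕ}

/-- **Voisin's conjecture for the quotients of Fermat hypersurfaces** -/
theorem voisin (hm : 3 ≤ m) (hmN : m + 3 ≤ 2 * N) (G : Subgroup (FermatGroup 𝕜 N m))
    (hG : ∀ P : Fin r → MvPolynomial (Fin N) 𝕜, (∀ i, InvForm G (P i)) → ¬ LinearIndependent 𝕜 P)
    (z : Fin r → (Fermat 𝕜 N m →₀ ℤ)) (hz : ∀ i, ((z i).sum fun _ c => c) = 0)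
    (hinv : ∀ i, ∀ g ∈ G, ∀ x, z i (Pool.Agent.T2H37.FK.act g x) = z i x) :
    ∃ j : ℕ, 0 < j ∧ j • ∑ σ : Equiv.Perm (Fin r), ((Equiv.Perm.sign σ : ℤ) ^ (N + 1)) •
      extProd (N := fun _ : Fin r => N) (fun k => z (σ k)) ∈
      Pool.Agent.T2H37.PR.RatEquivZero 𝕜 (fun _ : Fin r => N) m := by
  classical
  have := finite_group (𝕜 := 𝕜) (N := N) hm
  have : Fintype G := Fintype.ofFinite G
  have : NeZero N := ⟨by omega⟩
  obtain ⟨j, hj, h1⟩ := mainT (N := fun _ : Fin r => N) hm (fun _ => hmN) (altG (r := r) G)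
    (altG_kills G hG) z hz
  rw [altG_sum G _ (by intro g; simp) (by intro g b c; exact add_smul _ _ _)] at h1
  refine ⟨j * Fintype.card (Fin r → G), Nat.mul_pos hj Fintype.card_pos, ?_⟩
  have h2 : ∑ σ : Equiv.Perm (Fin r), ∑ h : Fin r → G, ((Equiv.Perm.sign σ : ℤ) ^ (N + 1)) •
      (extProd (N := fun _ : Fin r => N) z).mapDomain (au σ fun k => (h k).1).act =
      Fintype.card (Fin r → G) • ∑ σ : Equiv.Perm (Fin r), ((Equiv.Perm.sign σ : ℤ) ^ (N + 1)) •
        extProd (N := fun _ : Fin r => N) (fun k => z (σ k)) := by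
    rw [smul_sum]
    refine sum_congr rfl fun σ _ => ?_
    rw [← card_univ, ← sum_const]
    refine sum_congr rfl fun h _ => ?_
    rw [mapDomain_au σ (fun k => (h k).1) z fun i k x => hinv i _ (h k).2 x]
  rw [h2, smul_smul] at h1
  exact h1

end voisin

end Pool.Agent.U901.FV
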