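import Pool.Agent.T2H37.PR.WDefs

/-!
# Components of combinations of automorphisms, and projections
-/

set_option autoImplicit false

namespace Pool.Agent.U901.FX

open MvPolynomial Pool.Agent.T2H37.FK Pool.Agent.T2H37.PR

variable {𝕜 : Type*} [Field 𝕜] {K : ℕ} {N : Fin K → ℕ} {m : ℕ}

/-- The pullback `∑ g, a g • g^*` of holomorphic forms under the combination `a` of automorphisms of
the product `X` of Fermat hypersurfaces has no component in the forms of type `S'`. The holomorphic
forms of type `S` are the sums of exterior products of holomorphic forms of top degree on the factors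
`k ∈ S`; they are pulled back from the product of the factors in `S`, and by the Künneth formula the
holomorphic forms on `X` are the direct sum of the forms of type `S` over all sets `S` of factors
(type `∅`: the constants). The pullback of a form of type `S` under an automorphism with permutation
`π` has type `π S`. The forms of top degree on the `k`-th factor are the residues of `P k * Ω k / F k`
for the forms `P k` of degree `m - N k`, and `minor` is the determinant which compares the volume
forms, see `Pool.Agent.T2H37.PR.KillsType`. -/
def KillsInto (a : PAut 𝕜 N m →₀ ℤ) (S' : Finset (Fin K)) : Prop :=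
  ∀ (S : Finset (Fin K))
    (r : {x : Σ k, Fin (N k) // x.1 ∈ S} ≃ {x : Σ k, Fin (N k) // x.1 ∈ S'})
    (d : Fin K → ℕ) (P : ∀ k, MvPolynomial (Fin (N k)) 𝕜),
    (∀ k ∈ S, d k + N k = m ∧ (P k).IsHomogeneous (d k)) → ∀ v : ∀ k, Fin (N k) → 𝕜,
      (a.sum fun g c => (c : 𝕜) * (g.minor r * ∏ k ∈ S, eval (g.vec v k) (P k))) = 0

open Classical in
/-- The projection of the product `X` to the product `X S` of the factors `k ∈ S`, followed by the
embedding of `X S` in `X` which is given by the coordinates of the point `o` in the other factors. -/
noncomputable def keep (o : Pts 𝕜 N m) (S : Finset (Fin K)) (x : Pts 𝕜 N m) : Pts 𝕜 N m :=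
  fun k => if k ∈ S then x k else o k

end Pool.Agent.U901.FX
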